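import Pool.Agent.Work.MP_3125f4_gt.Card

/-!
# MP_3125f4_gt : cardinality of normal first countable cellular-Lindelöf spaces whose small
separated subsets have closures of small Lindelöf number
-/

open Set Cardinal Topology Filter

universe u

namespace MP3125f4

variable {X : Type u} [TopologicalSpace X]

/-- general form -/
theorem mk_le_of_closures [T1Space X] [NormalSpace X] [FirstCountableTopology X]
    (hX : CellularLindelof X) {Z : Set X} (hZ : Dense Z) {ν θ : Cardinal.{u}}
    (hν : ν.IsRegular) (hω : ℵ₀ < ν) (h2 : 2 ≤ θ) (hθ : ∀ μ < ν, θ ^ μ ≤ θ)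
    (hL : ∀ A ⊆ Z, DisjSep A → #A < ν → LindelofLE (closure A) ν) : #X ≤ θ :=
  closing_off hω h2 hθ fun _ hU hcov => weak_cover hX hν hω hZ hL hU hcov

/-- bound `𝔠` -/
theorem mk_le_cont [T1Space X] [NormalSpace X] [FirstCountableTopology X]
    (hX : CellularLindelof X) {Z : Set X} (hZ : Dense Z)
    (hL : ∀ A ⊆ Z, DisjSep A → #A < kap → LindelofLE (closure A) kap) : #X ≤ 𝔠 :=
  mk_le_of_closures hX hZ isRegular_kap aleph0_lt_kap (nat_lt_continuum 2).le
    (fun _ h => cont_pow_le h) hL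

/-- bound `2 ^< 𝔠` for regular `𝔠` -/
theorem mk_le_powerlt [T1Space X] [NormalSpace X] [FirstCountableTopology X]
    (hX : CellularLindelof X) (hc : (𝔠 : Cardinal.{u}).IsRegular) : #X ≤ 2 ^< 𝔠 := by
  have : T4Space X := {}
  refine mk_le_of_closures hX dense_univ hc aleph0_lt_continuum ?_
    (fun μ hμ => powerlt_pow_le hc hμ) ?_
  · have h1 : (2 : Cardinal.{u}) ^ (1 : Cardinal.{u}) ≤ 2 ^< 𝔠 :=
      le_powerlt _ (by exact_mod_cast nat_lt_continuum 1)
    rwa [power_one] at h1
  · intro A _ _ hA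
    exact lindelofLE_of_mk_le (mk_closure_le hA.le)

end MP3125f4
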