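import Pool.Agent.Work.MP_3125f4_gt.Defs

/-!
# MP_3125f4_gt : the catching lemma in normal first countable cellular-Lindelöf spaces
-/

open Set Cardinal Topology Filter

universe u

namespace MP3125f4

variable {X : Type u} [TopologicalSpace X]

theorem DisjSep.mono {D E : Set X} (hD : DisjSep D) (h : E ⊆ D) : DisjSep E := by
  obtain ⟨V, hV, hVd⟩ := hD
  exact ⟨V, fun x hx => hV x (h hx), hVd.subset h⟩

/-- countable open neighbourhood bases -/
theorem exists_base [FirstCountableTopology X] :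
    ∃ B : X → ℕ → Set X, (∀ x n, IsOpen (B x n)) ∧ (∀ x n, x ∈ B x n) ∧
      ∀ x, ∀ s ∈ 𝓝 x, ∃ n, B x n ⊆ s := by
  have h : ∀ x : X, ∃ B : ℕ → Set X, (∀ n, IsOpen (B n)) ∧ (∀ n, x ∈ B n) ∧
      ∀ s ∈ 𝓝 x, ∃ n, B n ⊆ s := by
    intro x
    obtain ⟨B, hB, hB2⟩ := (nhds_basis_opens x).exists_antitone_subbasis
    refine ⟨B, fun n => (hB n).2, fun n => (hB n).1, fun s hs => ?_⟩
    obtain ⟨n, hn⟩ := hB2.mem_iff.1 hs
    exact ⟨n, hn⟩
  choose B h1 h2 h3 using h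
  exact ⟨B, h1, h2, h3⟩

/-- The catching lemma: in a normal first countable cellular-Lindelöf space, if `Y` is closed,
`W` is an open family covering `Y` and `D ⊆ Y` is separated by disjoint open sets, then
a countable subfamily of `W` has `D` in the closure of its union. -/
theorem catching [NormalSpace X] [FirstCountableTopology X] (hX : CellularLindelof X)
    {Y : Set X} (hY : IsClosed Y) {W : Set (Set X)} (hW : ∀ w ∈ W, IsOpen w) (hYW : Y ⊆ ⋃₀ W)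
    {D : Set X} (hDY : D ⊆ Y) (hD : DisjSep D) :
    ∃ C ⊆ W, C.Countable ∧ D ⊆ closure (⋃₀ C) := by
  obtain ⟨V, hV, hVd⟩ := hD
  obtain ⟨B, hBo, hBm, hBs⟩ := exists_base (X := X)
  obtain ⟨O, hO, hYO, hOW⟩ := normal_exists_closure_subset hY (isOpen_sUnion hW) hYW
  have key : ∀ j : ℕ, ∃ C ⊆ W, C.Countable ∧ ∀ x ∈ D, (⋃₀ C ∩ B x j).Nonempty := by
    intro j
    obtain ⟨L, hL, hL2⟩ := hX ((fun x => B x j ∩ V x ∩ O) '' D) (by
      rintro u ⟨x, hx, rfl⟩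
      exact ⟨((hBo x j).inter (hV x hx).1).inter hO, ⟨x, ⟨hBm x j, (hV x hx).2⟩, hYO (hDY hx)⟩⟩) (by
      rintro _ ⟨x, hx, rfl⟩ _ ⟨y, hy, rfl⟩ hne
      have hxy : x ≠ y := by
        rintro rfl
        exact hne rfl
      have := hVd hx hy hxy
      exact this.mono (fun z hz => hz.1.2) (fun z hz => hz.1.2))
    have hL3 : IsLindelof (L ∩ closure O) := hL.inter_right isClosed_closure
    obtain ⟨C, hCW, hCc, hCs⟩ := hL3.elim_countable_subcover_image (b := W) (c := id)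
      (fun i hi => hW i hi) (by
        intro z hz
        obtain ⟨w, hw, hzw⟩ := hOW hz.2
        exact mem_biUnion hw hzw)
    refine ⟨C, hCW, hCc, fun x hx => ?_⟩
    obtain ⟨z, hzL, hz⟩ := hL2 _ ⟨x, hx, rfl⟩
    refine ⟨z, ?_, hz.1.1⟩
    have := hCs ⟨hzL, subset_closure hz.2⟩
    obtain ⟨w, hw, hzw⟩ := mem_iUnion₂.1 this
    exact ⟨w, hw, hzw⟩
  choose C hCW hCc hC using key
  refine ⟨⋃ j, C j, iUnion_subset hCW, countable_iUnion hCc, fun x hx => ?_⟩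
  rw [mem_closure_iff_nhds]
  intro s hs
  obtain ⟨j, hj⟩ := hBs x s hs
  obtain ⟨z, hz1, hz2⟩ := hC j x hx
  refine ⟨z, hj hz2, ?_⟩
  obtain ⟨w, hw, hzw⟩ := hz1
  exact ⟨w, mem_iUnion.2 ⟨j, hw⟩, hzw⟩

/-- A maximal disjoint family of nonempty open sets refining a given open cover has
dense union. -/
theorem exists_maximal_cellular {U : Set (Set X)} (hU : ∀ u ∈ U, IsOpen u)
    (hcov : ⋃₀ U = Set.univ) :
    ∃ V : Set (Set X), (∀ v ∈ V, IsOpen v ∧ v.Nonempty ∧ ∃ u ∈ U, v ⊆ u) ∧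
      V.PairwiseDisjoint id ∧ Dense (⋃₀ V) := by
  obtain ⟨V, hV⟩ := zorn_subset
    {V : Set (Set X) | (∀ v ∈ V, IsOpen v ∧ v.Nonempty ∧ ∃ u ∈ U, v ⊆ u) ∧
      V.PairwiseDisjoint id} (by
    intro c hc hchain
    refine ⟨⋃₀ c, ⟨?_, ?_⟩, fun s hs => subset_sUnion_of_mem hs⟩
    · rintro v ⟨s, hs, hv⟩
      exact (hc hs).1 v hv
    · rintro v ⟨s, hs, hv⟩ w ⟨t, ht, hw⟩ hne
      rcases hchain.total hs ht with h | h
      · exact (hc ht).2 (h hv) hw hne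
      · exact (hc hs).2 hv (h hw) hne)
  refine ⟨V, hV.prop.1, hV.prop.2, ?_⟩
  rw [dense_iff_inter_open]
  intro G hG hGne
  by_contra hcon
  rw [not_nonempty_iff_eq_empty] at hcon
  obtain ⟨x, hx⟩ := hGne
  have hxU : x ∈ ⋃₀ U := hcov ▸ mem_univ x
  obtain ⟨u, hu, hxu⟩ := hxU
  have hins : insert (G ∩ u) V ∈ {V : Set (Set X) |
      (∀ v ∈ V, IsOpen v ∧ v.Nonempty ∧ ∃ u ∈ U, v ⊆ u) ∧ V.PairwiseDisjoint id} := by
    refine ⟨?_, ?_⟩
    · rintro v (rfl | hv)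
      · exact ⟨hG.inter (hU u hu), ⟨x, hx, hxu⟩, u, hu, inter_subset_right⟩
      · exact hV.prop.1 v hv
    · refine hV.prop.2.insert ?_
      intro w hw _
      change Disjoint (G ∩ u) w
      rw [Set.disjoint_left]
      intro z hz hzw
      have : z ∈ G ∩ ⋃₀ V := ⟨hz.1, w, hw, hzw⟩
      rw [hcon] at this
      exact this
  have hsub := hV.le_of_ge hins (subset_insert _ _)
  have hmem : G ∩ u ∈ V := hsub (mem_insert _ _)
  have : x ∈ G ∩ ⋃₀ V := ⟨hx, _, hmem, hx, hxu⟩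
  rw [hcon] at this
  exact this

end MP3125f4
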