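import Pool.Agent.Work.MP_3125f4_gt.WeakCover

/-!
# MP_3125f4_gt : cardinal arithmetic
-/

open Set Cardinal Topology Filter

universe u

namespace MP3125f4

theorem cont_lt_two_pow_kap : (𝔠 : Cardinal.{u}) < 2 ^ (kap : Cardinal.{u}) :=
  csInf_mem (s := {μ : Cardinal.{u} | 𝔠 < 2 ^ μ}) ⟨𝔠, cantor 𝔠⟩

theorem two_pow_le_of_lt_kap {μ : Cardinal.{u}} (h : μ < kap) : (2 : Cardinal.{u}) ^ μ ≤ 𝔠 :=
  not_lt.1 (notMem_of_lt_csInf' (s := {μ : Cardinal.{u} | 𝔠 < 2 ^ μ}) h)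

theorem lt_kap_iff {μ : Cardinal.{u}} : μ < kap ↔ (2 : Cardinal.{u}) ^ μ ≤ 𝔠 := by
  refine ⟨two_pow_le_of_lt_kap, fun h => ?_⟩
  by_contra hcon
  have := power_le_power_left (two_ne_zero' Cardinal.{u}) (not_lt.1 hcon)
  exact absurd (this.trans h) (not_le.2 cont_lt_two_pow_kap)

theorem kap_le_cont : (kap : Cardinal.{u}) ≤ 𝔠 :=
  csInf_le' (s := {μ : Cardinal.{u} | 𝔠 < 2 ^ μ}) (cantor 𝔠)

theorem aleph0_lt_kap : ℵ₀ < (kap : Cardinal.{u}) := lt_kap_iff.2 (by rw [two_power_aleph0])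

theorem cont_pow_le {μ : Cardinal.{u}} (h : μ < kap) : (𝔠 : Cardinal.{u}) ^ μ ≤ 𝔠 := by
  rw [← two_power_aleph0, ← power_mul, two_power_aleph0]
  exact two_pow_le_of_lt_kap (mul_lt_of_lt aleph0_lt_kap.le aleph0_lt_kap h)

theorem isRegular_kap : (kap : Cardinal.{u}).IsRegular := by
  refine IsRegular.of_not_isSingular aleph0_lt_kap.le fun hs => ?_
  have hcof := hs.cof_ord_lt
  obtain ⟨S, hS, hSc⟩ := Order.exists_cof_eq (α := (kap : Cardinal.{u}).ord.ToType)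
  rw [Ordinal.cof_toType] at hSc
  have hinj : Function.Injective
      (fun (T : Set (kap : Cardinal.{u}).ord.ToType) (s : S) => {i : Iic s.1 | i.1 ∈ T}) := by
    intro T T' h
    ext i
    obtain ⟨s, hs, his⟩ := hS i
    have h1 := congrFun h ⟨s, hs⟩
    have h2 : (⟨i, his⟩ : Iic s) ∈ {j : Iic s | j.1 ∈ T} ↔ (⟨i, his⟩ : Iic s) ∈ {j : Iic s | j.1 ∈ T'} := by
      change {j : Iic s | j.1 ∈ T} = {j : Iic s | j.1 ∈ T'} at h1
      rw [h1]
    exact h2
  have h1 := mk_le_of_injective hinj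
  rw [mk_set, mk_ord_toType, mk_pi] at h1
  have hIic : ∀ a : (kap : Cardinal.{u}).ord.ToType, #(Iic a) < kap := by
    intro a
    have h1 : Iic a = insert a (Iio a) := by
      ext z
      simp only [mem_Iic, mem_insert_iff, mem_Iio]
      exact le_iff_eq_or_lt
    rw [h1]
    refine (mk_insert_le).trans_lt ?_
    exact add_lt_of_lt aleph0_lt_kap.le (mk_Iio_lt' _ a) (one_lt_aleph0.trans aleph0_lt_kap)
  have h2 : Cardinal.prod (fun s : S => #(Set (Iic s.1))) ≤ Cardinal.prod (fun _ : S => (𝔠 : Cardinal.{u})) := by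
    refine prod_le_prod _ _ fun s => ?_
    rw [mk_set]
    exact two_pow_le_of_lt_kap (hIic _)
  rw [prod_const', hSc] at h2
  have h3 := h1.trans (h2.trans (cont_pow_le hcof))
  exact absurd h3 (not_le.2 cont_lt_two_pow_kap)

/-- for a regular cardinal `c`, `(2 ^< c) ^ μ ≤ 2 ^< c` for all `μ < c`. -/
theorem powerlt_pow_le {c : Cardinal.{u}} (hc : c.IsRegular) {μ : Cardinal.{u}} (hμ : μ < c) :
    ((2 : Cardinal.{u}) ^< c) ^ μ ≤ 2 ^< c := by
  have hcP : c ≤ 2 ^< c := by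
    by_contra hcon
    rw [not_le] at hcon
    exact absurd (le_powerlt (2 : Cardinal.{u}) hcon) (not_le.2 (cantor _))
  have hP0 : ℵ₀ ≤ (2 : Cardinal.{u}) ^< c := hc.aleph0_le.trans hcP
  set S : Type u := Σ r : c.ord.ToType, Set (Iio r) with hS
  have hPS : (2 : Cardinal.{u}) ^< c ≤ #S := by
    rw [powerlt_le]
    intro x hx
    obtain ⟨r, hr⟩ := exists_mk_Iio_eq hx
    rw [← hr, ← mk_set]
    refine mk_le_of_injective (f := fun T : Set (Iio r) => (⟨r, T⟩ : S)) ?_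
    intro T T' h
    exact sigma_mk_injective (i := r) h
  obtain ⟨M, rfl⟩ : ∃ M : Type u, #M = μ := ⟨μ.out, mk_out μ⟩
  have hb : ∀ f : M → S, ∃ b : c.ord.ToType, ∀ m, (f m).1 < b := by
    intro f
    obtain ⟨b, hb⟩ := exists_bound hc (S := range fun m => (f m).1)
      (mk_range_le.trans_lt hμ)
    exact ⟨b, fun m => hb _ ⟨m, rfl⟩⟩
  choose b hb using hb
  let Φ : (M → S) → Σ b : c.ord.ToType, (M → Iio b × Set (Iio b)) := fun f =>
    ⟨b f, fun m => (⟨(f m).1, hb f m⟩, {i | ∃ h : i.1 < (f m).1, (⟨i.1, h⟩ : Iio (f m).1) ∈ (f m).2})⟩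
  have hΦ : Function.Injective Φ := by
    intro f g hfg
    have h1 : b f = b g := congrArg Sigma.fst hfg
    funext m
    have h2 : ∀ (b1 b2 : c.ord.ToType) (F : M → Iio b1 × Set (Iio b1)) (G : M → Iio b2 × Set (Iio b2)),
        (⟨b1, F⟩ : Σ b : c.ord.ToType, (M → Iio b × Set (Iio b))) = ⟨b2, G⟩ →
        ((F m).1 : c.ord.ToType) = (G m).1 ∧
          ∀ i (hi1 : i < b1) (hi2 : i < b2), (⟨i, hi1⟩ : Iio b1) ∈ (F m).2 ↔ (⟨i, hi2⟩ : Iio b2) ∈ (G m).2 := by
      intro b1 b2 F G h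
      cases h
      exact ⟨rfl, fun i _ _ => Iff.rfl⟩
    obtain ⟨h3, h4⟩ := h2 _ _ _ _ hfg
    change (f m).1 = (g m).1 at h3
    have h5 : ∀ (p q : S), p.1 = q.1 →
        (∀ i (h1 : i < p.1) (h2 : i < q.1), (⟨i, h1⟩ : Iio p.1) ∈ p.2 ↔ (⟨i, h2⟩ : Iio q.1) ∈ q.2) →
        p = q := by
      rintro ⟨r, T⟩ ⟨r', T'⟩ h h'
      cases h
      congr 1
      ext ⟨i, hi⟩
      exact h' i hi hi
    refine h5 _ _ h3 fun i hi1 hi2 => ?_
    have h6 := h4 i (hi1.trans (hb f m)) (hi2.trans (hb g m))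
    constructor
    · intro h
      obtain ⟨h7, h8⟩ := h6.1 ⟨hi1, h⟩
      exact h8
    · intro h
      obtain ⟨h7, h8⟩ := h6.2 ⟨hi2, h⟩
      exact h8
  have h1 := mk_le_of_injective hΦ
  calc ((2 : Cardinal.{u}) ^< c) ^ #M ≤ #S ^ #M := power_le_power_right hPS
    _ = #(M → S) := by rw [power_def]
    _ ≤ _ := h1
    _ = sum (fun b : c.ord.ToType => #(M → Iio b × Set (Iio b))) := mk_sigma _
    _ ≤ sum (fun _ : c.ord.ToType => (2 : Cardinal.{u}) ^< c) := by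
        refine sum_le_sum _ _ fun b => ?_
        rw [← power_def, mk_prod, lift_id, lift_id, mk_set]
        set l : Cardinal.{u} := #(Iio b)
        have hl : l < c := mk_Iio_lt' c b
        have h2 : l * 2 ^ l ≤ 2 ^ (l + l) := by
          rw [power_add]
          exact mul_le_mul_left (cantor l).le _
        refine (power_le_power_right h2).trans ?_
        rw [← power_mul]
        exact le_powerlt _ (mul_lt_of_lt hc.aleph0_le (add_lt_of_lt hc.aleph0_le hl hl) hμ)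
    _ = c * (2 ^< c) := by rw [sum_const', mk_ord_toType]
    _ ≤ (2 ^< c) * (2 ^< c) := mul_le_mul_left hcP _
    _ = 2 ^< c := mul_eq_self hP0

section closure

variable {X : Type u} [TopologicalSpace X]

/-- the closure of a set of size `≤ 𝔠` in a first countable Hausdorff space has size `≤ 𝔠`. -/
theorem mk_closure_le [T2Space X] [FirstCountableTopology X] {A : Set X} (hA : #A ≤ 𝔠) :
    #(closure A : Set X) ≤ 𝔠 := by
  have h : ∀ y : (closure A : Set X), ∃ s : ℕ → A, Tendsto (fun n => (s n : X)) atTop (𝓝 (y : X)) := by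
    rintro ⟨y, hy⟩
    obtain ⟨s, hs, hsy⟩ := mem_closure_iff_seq_limit.1 hy
    exact ⟨fun n => ⟨s n, hs n⟩, hsy⟩
  choose s hs using h
  have hinj : Function.Injective s := by
    intro y z hyz
    have h1 := hs y
    rw [hyz] at h1
    exact Subtype.ext (tendsto_nhds_unique h1 (hs z))
  refine (mk_le_of_injective hinj).trans ?_
  have : #(ℕ → A) = #A ^ (ℵ₀ : Cardinal.{u}) := by simp
  rw [this]
  exact (power_le_power_right hA).trans continuum_power_aleph0.le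

theorem lindelofLE_of_mk_le {K : Set X} {ν : Cardinal.{u}} (h : #K ≤ ν) : LindelofLE K ν := by
  intro U hU hK
  choose! w hw hxw using fun x (hx : x ∈ K) => mem_sUnion.1 (hK hx)
  refine ⟨w '' K, ?_, mk_image_le.trans h, ?_⟩
  · rintro _ ⟨x, hx, rfl⟩
    exact hw x hx
  · intro x hx
    exact ⟨w x, ⟨x, hx, rfl⟩, hxw x hx⟩

end closure

end MP3125f4
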