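import Pool.Agent.Work.MP_3125f4_gt.Core

/-!
# Closed subspaces with few real characters, for MP_3125f4_gt
-/

open Set Cardinal Topology

universe u

namespace Pool.Agent.MP3125f4

section chars

variable {X : Type u} [TopologicalSpace X] [T4Space X]

/-- an extension operator for continuous real functions on a closed set -/
lemma exists_ext {K : Set X} (hK : IsClosed K) :
    ∃ ext : C(K, ℝ) → C(X, ℝ), ∀ f, ∀ x : K, ext f x = f x := by
  choose ext hext using fun f : C(K, ℝ) => ContinuousMap.exists_restrict_eq hK f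
  refine ⟨ext, fun f x => ?_⟩
  have := congrArg (fun g : C(K, ℝ) => g x) (hext f)
  simpa using this

/-- Case of few characters. -/
lemma char_case {K : Set X} (hK : IsClosed K) {p : X} (hpK : p ∉ K)
    (ext : C(K, ℝ) → C(X, ℝ)) (hext : ∀ f, ∀ x : K, ext f x = f x)
    (𝒢 : Set (Set X))
    (h1 : ∀ f g (n : ℕ), {x | |ext (f + g) x - (ext f x + ext g x)| < 1 / ((n : ℝ) + 1)} ∈ 𝒢)
    (h2 : ∀ f g (n : ℕ), {x | |ext (f * g) x - (ext f x * ext g x)| < 1 / ((n : ℝ) + 1)} ∈ 𝒢)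
    (h3 : ∀ n : ℕ, {x | |ext 1 x - 1| < 1 / ((n : ℝ) + 1)} ∈ 𝒢)
    (h4 : ∀ f, {x | 1 / 2 < ext f x} ∈ 𝒢)
    (h5 : ∀ e : C(K, ℝ) →+* ℝ, (∀ x ∈ K, ∃ f, ext f x ≠ e f) →
      ∃ G ∈ 𝒢, K ⊆ G ∧ Disjoint (closure G) {x | ∀ f, ext f x = e f})
    (hB : ∀ y ∈ K, ∀ V ∈ 𝓝 y, ∃ G ∈ 𝒢, y ∈ G ∧ G ⊆ V ∧ IsOpen G) :
    ∃ N ∈ 𝓝 p, ∃ 𝒞 ⊆ 𝒢, 𝒞.Finite ∧ K ⊆ ⋃₀ 𝒞 ∧ ∀ C ∈ 𝒞, Disjoint C N := by
  classical
  by_contra H
  -- single sets
  have hS : ∀ G ∈ 𝒢, K ⊆ G → p ∈ closure G := by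
    intro G hG hKG
    by_contra hp
    apply H
    refine ⟨(closure G)ᶜ, isClosed_closure.isOpen_compl.mem_nhds hp, {G}, by simpa using hG,
      finite_singleton _, by simpa using hKG, ?_⟩
    intro C hC
    rw [mem_singleton_iff.1 hC]
    exact (disjoint_compl_right).mono_left subset_closure
  have hzero : ∀ h : X → ℝ, Continuous h → (∀ n : ℕ, {x | |h x| < 1 / ((n : ℝ) + 1)} ∈ 𝒢) →
      (∀ x ∈ K, h x = 0) → h p = 0 := by
    intro h hc hh hK0
    have hle : ∀ n : ℕ, |h p| ≤ 1 / ((n : ℝ) + 1) := by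
      intro n
      have h6 := hS _ (hh n) (fun x hx => by
        show |h x| < _
        rw [hK0 x hx, abs_zero]
        positivity)
      have h7 : closure {x | |h x| < 1 / ((n : ℝ) + 1)} ⊆ {x | |h x| ≤ 1 / ((n : ℝ) + 1)} :=
        closure_minimal (fun x (hx : |h x| < _) => show |h x| ≤ _ from le_of_lt hx)
        (isClosed_le (hc.abs) continuous_const)
      exact h7 h6
    have h8 : |h p| ≤ 0 :=
      ge_of_tendsto' (tendsto_one_div_add_atTop_nhds_zero_nat (𝕜 := ℝ)) hle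
    exact abs_eq_zero.1 (le_antisymm h8 (abs_nonneg _))
  have hadd : ∀ f g, ext (f + g) p = ext f p + ext g p := by
    intro f g
    have := hzero (fun x => ext (f + g) x - (ext f x + ext g x)) (by fun_prop) (h1 f g) (by
      intro x hx
      have e1 := hext (f + g) ⟨x, hx⟩
      have e2 := hext f ⟨x, hx⟩
      have e3 := hext g ⟨x, hx⟩
      simp only [ContinuousMap.add_apply] at e1
      rw [e1, e2, e3, sub_self])
    linarith
  have hmul : ∀ f g, ext (f * g) p = ext f p * ext g p := by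
    intro f g
    have := hzero (fun x => ext (f * g) x - (ext f x * ext g x)) (by fun_prop) (h2 f g) (by
      intro x hx
      have e1 := hext (f * g) ⟨x, hx⟩
      have e2 := hext f ⟨x, hx⟩
      have e3 := hext g ⟨x, hx⟩
      simp only [ContinuousMap.mul_apply] at e1
      rw [e1, e2, e3, sub_self])
    linarith
  have hone : ext 1 p = 1 := by
    have := hzero (fun x => ext 1 x - 1) (by fun_prop) h3 (by
      intro x hx
      have e1 := hext 1 ⟨x, hx⟩
      simp only [ContinuousMap.one_apply] at e1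
      rw [e1, sub_self])
    linarith
  let e₀ : C(K, ℝ) →* ℝ :=
    { toFun := fun f => ext f p
      map_one' := hone
      map_mul' := hmul }
  let e : C(K, ℝ) →+* ℝ := RingHom.mk' e₀ hadd
  have he : ∀ f, e f = ext f p := fun f => rfl
  by_cases hev : ∀ x ∈ K, ∃ f, ext f x ≠ e f
  · obtain ⟨G, hG, hKG, hdis⟩ := h5 e hev
    have := hS G hG hKG
    exact (Set.disjoint_left.1 hdis) this (fun f => (he f).symm)
  · push Not at hev
    obtain ⟨y, hyK, hy⟩ := hev
    have hne : y ≠ p := fun h => hpK (h ▸ hyK)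
    -- neighbourhood of y with closure missing p
    obtain ⟨V, hVy, hVp⟩ : ∃ V ∈ 𝓝 y, p ∉ closure V := by
      obtain ⟨A, B, hA, hBo, hyA, hpB, hAB⟩ := t2_separation hne
      refine ⟨A, hA.mem_nhds hyA, ?_⟩
      intro hp
      exact (Set.disjoint_left.1 (hAB.closure_left hBo)) hp hpB
    obtain ⟨G, hG, hyG, hGV, hGo⟩ := hB y hyK V hVy
    -- Urysohn
    have hcl1 : IsClosed ({y} : Set X) := isClosed_singleton
    have hcl2 : IsClosed (K \ G) := hK.sdiff hGo
    obtain ⟨f, hf0, hf1, -⟩ := exists_continuous_zero_one_of_isClosed hcl1 hcl2 (by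
      rw [Set.disjoint_left]
      rintro x hx ⟨-, hx'⟩
      rw [mem_singleton_iff.1 hx] at hx'
      exact hx' hyG)
    let f' : C(K, ℝ) := f.restrict K
    have hf'p : ext f' p = 0 := by
      rw [← he f', ← hy f', hext f' ⟨y, hyK⟩]
      exact hf0 (mem_singleton y)
    apply H
    refine ⟨(closure G)ᶜ ∩ {x | ext f' x < 1 / 2}, ?_, {G, {x | 1 / 2 < ext f' x}}, ?_, ?_, ?_, ?_⟩
    · apply Filter.inter_mem
      · apply isClosed_closure.isOpen_compl.mem_nhds
        exact fun h => hVp (closure_mono hGV h)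
      · apply (isOpen_lt (ext f').continuous continuous_const).mem_nhds
        show ext f' p < 1 / 2
        rw [hf'p]; norm_num
    · rintro C (rfl | hC)
      · exact hG
      · rw [mem_singleton_iff.1 hC]
        exact h4 f'
    · exact (finite_singleton _).insert _
    · intro x hx
      by_cases hxG : x ∈ G
      · exact ⟨G, Or.inl rfl, hxG⟩
      · refine ⟨_, Or.inr rfl, ?_⟩
        show 1 / 2 < ext f' x
        rw [hext f' ⟨x, hx⟩]
        have : f' ⟨x, hx⟩ = 1 := hf1 ⟨hx, hxG⟩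
        rw [this]; norm_num
    · rintro C (rfl | hC)
      · rw [Set.disjoint_left]
        rintro x hx ⟨hx', -⟩
        exact hx' (subset_closure hx)
      · rw [mem_singleton_iff.1 hC, Set.disjoint_left]
        rintro x hx ⟨-, hx'⟩
        exact absurd (show 1 / 2 < ext f' x from hx) (not_lt.2 (le_of_lt hx'))

/-- The countably many kinds of sets attached to a closed set with few functions and few
characters. -/
lemma exists_family {θ : Cardinal.{u}} (hinf : ℵ₀ ≤ θ) {K : Set X} (hK : IsClosed K)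
    (hc : #(C(K, ℝ)) ≤ θ) (hr : #(C(K, ℝ) →+* ℝ) ≤ θ) :
    ∃ ℰ : Set (Set X), #ℰ ≤ θ ∧ (∀ G ∈ ℰ, IsOpen G) ∧
      ∀ (𝒢 : Set (Set X)), ℰ ⊆ 𝒢 → (∀ y ∈ K, ∀ V ∈ 𝓝 y, ∃ G ∈ 𝒢, y ∈ G ∧ G ⊆ V ∧ IsOpen G) →
        ∀ p ∉ K, ∃ N ∈ 𝓝 p, ∃ 𝒞 ⊆ 𝒢, 𝒞.Finite ∧ K ⊆ ⋃₀ 𝒞 ∧ ∀ C ∈ 𝒞, Disjoint C N := by
  classical
  obtain ⟨ext, hext⟩ := exists_ext hK
  -- the sets for the characters
  have hG : ∀ e : C(K, ℝ) →+* ℝ, ∃ G : Set X, IsOpen G ∧ ((∀ x ∈ K, ∃ f, ext f x ≠ e f) →
      K ⊆ G ∧ Disjoint (closure G) {x | ∀ f, ext f x = e f}) := by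
    intro e
    by_cases h : ∀ x ∈ K, ∃ f, ext f x ≠ e f
    · have hcl : IsClosed {x : X | ∀ f, ext f x = e f} := by
        have : {x : X | ∀ f, ext f x = e f} = ⋂ f, {x | ext f x = e f} := by
          ext x; simp
        rw [this]
        exact isClosed_iInter fun f => isClosed_eq (ext f).continuous continuous_const
      have hsub : K ⊆ {x : X | ∀ f, ext f x = e f}ᶜ := by
        intro x hx hx'
        obtain ⟨f, hf⟩ := h x hx
        exact hf (hx' f)
      obtain ⟨G, hGo, hKG, hGc⟩ := normal_exists_closure_subset hK hcl.isOpen_compl hsub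
      refine ⟨G, hGo, fun _ => ⟨hKG, ?_⟩⟩
      rw [Set.disjoint_left]
      exact fun x hx hx' => hGc hx hx'
    · exact ⟨∅, isOpen_empty, fun h' => absurd h' h⟩
  choose Gs hGs1 hGs2 using hG
  let E1 : Set (Set X) := range fun a : C(K, ℝ) × C(K, ℝ) × ULift.{u} ℕ =>
    {x | |ext (a.1 + a.2.1) x - (ext a.1 x + ext a.2.1 x)| < 1 / ((a.2.2.down : ℝ) + 1)}
  let E2 : Set (Set X) := range fun a : C(K, ℝ) × C(K, ℝ) × ULift.{u} ℕ =>
    {x | |ext (a.1 * a.2.1) x - (ext a.1 x * ext a.2.1 x)| < 1 / ((a.2.2.down : ℝ) + 1)}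
  let E3 : Set (Set X) := range fun n : ULift.{u} ℕ => {x | |ext 1 x - 1| < 1 / ((n.down : ℝ) + 1)}
  let E4 : Set (Set X) := range fun f : C(K, ℝ) => {x | 1 / 2 < ext f x}
  let E5 : Set (Set X) := range Gs
  refine ⟨E1 ∪ E2 ∪ E3 ∪ E4 ∪ E5, ?_, ?_, ?_⟩
  · have hN : #(ULift.{u} ℕ) ≤ θ := by
      simpa using hinf
    have hprod : #(C(K, ℝ) × C(K, ℝ) × ULift.{u} ℕ) ≤ θ := by
      simp only [mk_prod, lift_id]
      calc _ ≤ θ * (θ * θ) := by gcongr
        _ = θ := by rw [mul_eq_self hinf, mul_eq_self hinf]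
    have hun : ∀ {A B : Set (Set X)}, #A ≤ θ → #B ≤ θ → #(A ∪ B : Set (Set X)) ≤ θ := by
      intro A B hA hB
      refine (mk_union_le _ _).trans ?_
      calc _ ≤ θ + θ := add_le_add hA hB
        _ = θ := add_eq_self hinf
    refine hun (hun (hun (hun ?_ ?_) ?_) ?_) ?_
    · exact mk_range_le.trans hprod
    · exact mk_range_le.trans hprod
    · exact mk_range_le.trans hN
    · exact mk_range_le.trans hc
    · exact mk_range_le.trans hr
  · rintro G ((((⟨a, rfl⟩ | ⟨a, rfl⟩) | ⟨n, rfl⟩) | ⟨f, rfl⟩) | ⟨e, rfl⟩)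
    · exact isOpen_lt (by fun_prop) continuous_const
    · exact isOpen_lt (by fun_prop) continuous_const
    · exact isOpen_lt (by fun_prop) continuous_const
    · exact isOpen_lt continuous_const (ext f).continuous
    · exact hGs1 e
  · intro 𝒢 hsub hB p hp
    refine char_case hK hp ext hext 𝒢 ?_ ?_ ?_ ?_ ?_ hB
    · intro f g n
      exact hsub (Or.inl (Or.inl (Or.inl (Or.inl ⟨(f, g, ⟨n⟩), rfl⟩))))
    · intro f g n
      exact hsub (Or.inl (Or.inl (Or.inl (Or.inr ⟨(f, g, ⟨n⟩), rfl⟩))))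
    · intro n
      exact hsub (Or.inl (Or.inl (Or.inr ⟨⟨n⟩, rfl⟩)))
    · intro f
      exact hsub (Or.inl (Or.inr ⟨f, rfl⟩))
    · intro e he
      exact ⟨Gs e, hsub (Or.inr ⟨e, rfl⟩), (hGs2 e he).1, (hGs2 e he).2⟩

end chars

end Pool.Agent.MP3125f4
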