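import Mathlib

/-!
# Closing-off lemmas for MP_3125f4_gt
-/

open Set Cardinal Topology

universe u

namespace Pool.Agent.MP3125f4

/-- Recursion on a well-order with values in a fixed type, the step depending only on
earlier values. -/
lemma exists_rec {I : Type u} [LinearOrder I] [WellFoundedLT I] {α : Type*} [Nonempty α]
    (step : I → (I → α) → α)
    (hstep : ∀ i f g, (∀ j < i, f j = g j) → step i f = step i g) :
    ∃ y : I → α, ∀ i, y i = step i y := by
  classical
  let a₀ : α := Classical.arbitrary α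
  let F : (i : I) → ((j : I) → j < i → α) → α :=
    fun i f => step i (fun j => if h : j < i then f j h else a₀)
  refine ⟨(wellFounded_lt (α := I)).fix F, fun i => ?_⟩
  rw [WellFounded.fix_eq]
  apply hstep
  intro j hj
  simp [hj]

section card

variable {κ θ : Cardinal.{u}}

lemma cont_le (hunc : ℵ₀ < κ) (h2 : 2 ≤ θ) (hθ : ∀ μ < κ, θ ^ μ ≤ θ) : 𝔠 ≤ θ := by
  rw [← two_power_aleph0]
  exact (power_le_power_right h2).trans (hθ _ hunc)

lemma theta_inf (hunc : ℵ₀ < κ) (h2 : 2 ≤ θ) (hθ : ∀ μ < κ, θ ^ μ ≤ θ) : ℵ₀ ≤ θ :=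
  aleph0_le_continuum.trans (cont_le hunc h2 hθ)

lemma kappa_le (h2 : 2 ≤ θ) (hθ : ∀ μ < κ, θ ^ μ ≤ θ) : κ ≤ θ := by
  by_contra h
  push Not at h
  have h1 := hθ _ h
  have h3 : (2 : Cardinal.{u}) ^ θ ≤ θ ^ θ := power_le_power_right h2
  exact absurd (cantor θ) (not_lt.2 (h3.trans h1))

lemma mk_small_subsets (hunc : ℵ₀ < κ) (h2 : 2 ≤ θ) (hθ : ∀ μ < κ, θ ^ μ ≤ θ)
    {X : Type u} (S : Set X) (hS : #S ≤ θ) : #{A : Set X | A ⊆ S ∧ #A < κ} ≤ θ := by
  classical
  have hinf := theta_inf hunc h2 hθ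
  have hcov : {A : Set X | A ⊆ S ∧ #A < κ} ⊆
      ⋃ i : κ.ord.ToType, {A : Set X | A ⊆ S ∧ #A ≤ #(Iio i)} := by
    rintro A ⟨hAS, hA⟩
    have h1 : (#A).ord < κ.ord := ord_lt_ord.2 hA
    have h2 : (#A).ord < Ordinal.type (α := κ.ord.ToType) (· < ·) := by
      simpa using h1
    obtain ⟨i, hi⟩ := Ordinal.typein_surj (α := κ.ord.ToType) (· < ·) h2
    refine mem_iUnion.2 ⟨i, hAS, ?_⟩
    have h3 : #(Iio i) = #A := by
      have h4 : #{j : κ.ord.ToType // j < i} = (Ordinal.typein (α := κ.ord.ToType) (· < ·) i).card := by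
        rw [← Ordinal.type_subrel]
        rfl
      have : #(Iio i) = #{j : κ.ord.ToType // j < i} := rfl
      rw [this, h4, hi, card_ord]
    exact h3.ge
  refine (mk_le_mk_of_subset hcov).trans ?_
  refine (mk_iUnion_le _).trans ?_
  have hκ := kappa_le h2 hθ
  have hb : ∀ i : κ.ord.ToType, #{A : Set X | A ⊆ S ∧ #A ≤ #(Iio i)} ≤ θ := by
    intro i
    have h1 := mk_bounded_subset_le S (#(Iio i))
    refine h1.trans ?_
    have h3 : max (#S) ℵ₀ ≤ θ := max_le hS hinf
    refine (power_le_power_right h3).trans ?_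
    apply hθ
    simpa using mk_Iio_lt i
  calc #(κ.ord.ToType) * ⨆ i, #{A : Set X | A ⊆ S ∧ #A ≤ #(Iio i)} ≤ θ * θ := by
        gcongr
        · simpa using hκ
        · exact ciSup_le' hb
    _ = θ := mul_eq_self hinf

/-- Closing off under an operation on small sets. -/
lemma close_off (hreg : κ.IsRegular) (hunc : ℵ₀ < κ) (h2 : 2 ≤ θ) (hθ : ∀ μ < κ, θ ^ μ ≤ θ)
    {X : Type u} (Φ : Set X → Set X) (hΦ : ∀ A : Set X, #A < κ → #(Φ A) ≤ θ) :
    ∃ Y : Set X, #Y ≤ θ ∧ ∀ A ⊆ Y, #A < κ → Φ A ⊆ Y := by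
  classical
  have hκ := kappa_le h2 hθ
  have hinf := theta_inf hunc h2 hθ
  obtain ⟨Z, hZ⟩ := exists_rec (I := κ.ord.ToType) (α := Set X)
    (fun i Z => ⋃ A : {A : Set X | A ⊆ (⋃ j : Iio i, Z j) ∧ #A < κ}, Φ A)
    (by
      intro i f g hfg
      have : (⋃ j : Iio i, f j) = ⋃ j : Iio i, g j := by
        apply iUnion_congr
        intro j
        exact hfg j j.2
      show (⋃ A : {A : Set X | A ⊆ (⋃ j : Iio i, f j) ∧ #A < κ}, Φ A) =
        ⋃ A : {A : Set X | A ⊆ (⋃ j : Iio i, g j) ∧ #A < κ}, Φ A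
      rw [this])
  have hcard : ∀ i, #(Z i) ≤ θ := by
    intro i
    induction i using WellFoundedLT.induction with
    | ind i ih =>
      rw [hZ i]
      have h1 : #(⋃ j : Iio i, Z j) ≤ θ := by
        refine (mk_iUnion_le _).trans ?_
        calc #(Iio i) * ⨆ j : Iio i, #(Z j) ≤ θ * θ := by
              gcongr
              · have : #(Iio i) < κ := by simpa using mk_Iio_lt i
                exact this.le.trans hκ
              · exact ciSup_le' fun j => ih j j.2
          _ = θ := mul_eq_self hinf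
      refine (mk_iUnion_le _).trans ?_
      calc _ ≤ θ * θ := by
            gcongr
            · exact mk_small_subsets hunc h2 hθ _ h1
            · exact ciSup_le' fun A => hΦ _ A.2.2
        _ = θ := mul_eq_self hinf
  refine ⟨⋃ i, Z i, ?_, ?_⟩
  · refine (mk_iUnion_le _).trans ?_
    calc _ ≤ θ * θ := by
          gcongr
          · simpa using hκ
          · exact ciSup_le' hcard
      _ = θ := mul_eq_self hinf
  · intro A hA hAκ
    choose j hj using fun a : A => mem_iUnion.1 (hA a.2)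
    -- a bound for the indices
    have hbd : #(⋃ a : A, Iic (j a)) < κ := by
      rw [card_iUnion_lt_iff_forall_of_isRegular hreg hAκ]
      intro a
      have h1 : #(Iio (j a)) < κ := by simpa using mk_Iio_lt (j a)
      have h2 : Iic (j a : κ.ord.ToType) = insert (j a : κ.ord.ToType) (Iio (j a)) := by
        ext x; simp [le_iff_eq_or_lt]
      rw [h2]
      refine (mk_insert_le).trans_lt ?_
      exact add_lt_of_lt hreg.aleph0_le h1 (one_lt_aleph0.trans_le hreg.aleph0_le)
    have hne : (⋃ a : A, Iic (j a : κ.ord.ToType)) ≠ Set.univ := by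
      intro h
      rw [h, mk_univ] at hbd
      simp at hbd
    obtain ⟨i, hi⟩ := (ne_univ_iff_exists_notMem _).1 hne
    simp only [mem_iUnion, mem_Iic, not_exists, not_le] at hi
    have hsub : A ⊆ ⋃ k : Iio i, Z k := by
      intro a ha
      exact mem_iUnion.2 ⟨⟨j ⟨a, ha⟩, hi ⟨a, ha⟩⟩, hj ⟨a, ha⟩⟩
    refine Subset.trans ?_ (subset_iUnion _ i)
    rw [hZ i]
    exact subset_iUnion (fun A : {A : Set X | A ⊆ (⋃ j : Iio i, Z j) ∧ #A < κ} => Φ A) ⟨A, hsub, hAκ⟩

end card

/-- An open base at every point, decreasing. -/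
lemma exists_base (X : Type u) [TopologicalSpace X] [FirstCountableTopology X] :
    ∃ B : X → ℕ → Set X, (∀ x n, IsOpen (B x n)) ∧ (∀ x n, x ∈ B x n) ∧
      (∀ x, Antitone (B x)) ∧ ∀ x, ∀ V ∈ 𝓝 x, ∃ n, B x n ⊆ V := by
  choose b hb using fun x : X => (𝓝 x).exists_antitone_basis
  refine ⟨fun x n => interior (b x n), fun x n => isOpen_interior, fun x n => ?_, fun x m n h => ?_,
    fun x V hV => ?_⟩
  · exact mem_interior_iff_mem_nhds.2 ((hb x).1.mem_of_mem trivial)
  · exact interior_mono ((hb x).2 h)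
  · obtain ⟨n, -, hn⟩ := (hb x).1.mem_iff.1 hV
    exact ⟨n, interior_subset.trans hn⟩

/-- Closures of small sets have at most `θ` points. -/
lemma mk_closure_le {κ θ : Cardinal.{u}} (hunc : ℵ₀ < κ) (h2 : 2 ≤ θ) (hθ : ∀ μ < κ, θ ^ μ ≤ θ)
    {X : Type u} [TopologicalSpace X] [T2Space X] [FirstCountableTopology X] (A : Set X)
    (hA : #A < κ) : #(closure A) ≤ θ := by
  choose u hu1 hu2 using fun x : closure A => mem_closure_iff_seq_limit.1 x.2
  have hinj : Function.Injective (fun x : closure A => (fun n : ULift.{u} ℕ => (⟨u x n.down, hu1 x n.down⟩ : A))) := by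
    intro x y hxy
    have h1 : u x = u y := by
      funext n
      have := congrFun hxy (ULift.up n)
      simpa using congrArg Subtype.val this
    apply Subtype.ext
    exact tendsto_nhds_unique (hu2 x) (h1 ▸ hu2 y)
  refine (mk_le_of_injective hinj).trans ?_
  rw [mk_pi]
  simp only [prod_const, lift_id, mk_uLift, mk_nat, lift_aleph0]
  have h1 : #A ≤ θ := hA.le.trans (kappa_le h2 hθ)
  exact (power_le_power_right h1).trans (hθ _ hunc)

/-- Continuous real functions on the closure of a small set. -/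
lemma mk_cont_le {κ θ : Cardinal.{u}} (hunc : ℵ₀ < κ) (h2 : 2 ≤ θ) (hθ : ∀ μ < κ, θ ^ μ ≤ θ)
    {X : Type u} [TopologicalSpace X] (A : Set X)
    (hA : #A < κ) : #(C(closure A, ℝ)) ≤ θ := by
  have hinj : Function.Injective (fun f : C(closure A, ℝ) =>
      (fun a : A => ULift.up.{u} (f ⟨a, subset_closure a.2⟩))) := by
    intro f g hfg
    apply ContinuousMap.ext
    have hd : Dense {x : closure A | (x : X) ∈ A} := by
      have := (Subtype.dense_iff (s := closure A) (t := {x : closure A | (x : X) ∈ A})).2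
      apply this
      have himg : (Subtype.val '' {x : closure A | (x : X) ∈ A}) = A := by
        ext x
        constructor
        · rintro ⟨y, hy, rfl⟩
          exact hy
        · intro hx
          exact ⟨⟨x, subset_closure hx⟩, hx, rfl⟩
      rw [himg]
    have := Continuous.ext_on hd f.continuous g.continuous (by
      intro x hx
      have h2 := congrFun hfg ⟨x, hx⟩
      simpa using h2)
    exact fun x => congrFun this x
  refine (mk_le_of_injective hinj).trans ?_
  rw [mk_pi]
  simp only [prod_const, lift_id, mk_uLift, mk_real, lift_continuum]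
  exact (power_le_power_right (cont_le hunc h2 hθ)).trans (hθ _ hA)

end Pool.Agent.MP3125f4
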