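import Pool.Agent.Work.MP_3125f4_gt.Basic

/-!
# MP_3125f4_gt : closing-off argument

If every open cover of a normal `T1` first countable space has a subfamily of size `< ν` with
dense union and `θ ^ μ ≤ θ` for all `μ < ν`, then the space has at most `θ` points.
-/

open Set Cardinal Topology Filter

universe u

namespace MP3125f4

section index

/-- initial segments of `ν.ord.ToType` are smaller than `ν` -/
theorem mk_Iio_lt' (ν : Cardinal.{u}) (i : ν.ord.ToType) : #(Iio i) < ν := by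
  have h := mk_Iio_lt (α := ν.ord.ToType) i (by rw [mk_ord_toType, Ordinal.type_toType])
  rwa [mk_ord_toType] at h

/-- every `μ < ν` is the size of an initial segment of `ν.ord.ToType` -/
theorem exists_mk_Iio_eq {ν μ : Cardinal.{u}} (h : μ < ν) :
    ∃ i : ν.ord.ToType, #(Iio i) = μ := by
  have h1 : μ.ord < Ordinal.type (α := ν.ord.ToType) (· < ·) := by
    rw [Ordinal.type_toType]
    exact ord_lt_ord.2 h
  obtain ⟨i, hi⟩ := Ordinal.mem_range_typein_iff (r := (· < · : ν.ord.ToType → ν.ord.ToType → Prop))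
    |>.2 h1
  refine ⟨i, ?_⟩
  have h2 := congrArg Ordinal.card hi
  rw [card_ord] at h2
  rw [← h2]
  rfl

end index

variable {X : Type u} [TopologicalSpace X]

/-- operation labels of the closing-off argument -/
abbrev Lab (ν : Cardinal.{u}) : Type u :=
  PUnit.{u + 1} ⊕ PUnit.{u + 1} ⊕ (Σ r : ν.ord.ToType, (Iio r → ℕ))

/-- arities of the operations -/
abbrev ar (ν : Cardinal.{u}) : Lab ν → Type u
  | Sum.inl _ => PEmpty.{u + 1}
  | Sum.inr (Sum.inl _) => ULift.{u} ℕ
  | Sum.inr (Sum.inr p) => Iio p.1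

theorem mk_wtype_le {ν θ : Cardinal.{u}} (hω : ℵ₀ < ν) (h2 : 2 ≤ θ)
    (hθ : ∀ μ < ν, θ ^ μ ≤ θ) : #(WType (ar ν)) ≤ θ := by
  have hc : (2 : Cardinal.{u}) ^ (ℵ₀ : Cardinal.{u}) ≤ θ :=
    (power_le_power_right h2).trans (hθ _ hω)
  have hθω : ℵ₀ ≤ θ := (cantor ℵ₀).le.trans hc
  have hνθ : ν ≤ θ := by
    by_contra hcon
    rw [not_le] at hcon
    have h3 := hθ θ hcon
    have h4 : (2 : Cardinal.{u}) ^ θ ≤ θ ^ θ := power_le_power_right h2
    exact absurd (h4.trans h3) (not_le.2 (cantor θ))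
  have hθθ : θ * θ = θ := mul_eq_self hθω
  have hlab : #(Lab ν) ≤ θ := by
    have h5 : #(Σ r : ν.ord.ToType, (Iio r → ℕ)) ≤ θ := by
      rw [mk_sigma]
      calc sum (fun r : ν.ord.ToType => #(Iio r → ℕ)) ≤ sum (fun _ : ν.ord.ToType => θ) := by
            refine sum_le_sum _ _ fun r => ?_
            have h6 : #(Iio r → ℕ) = (ℵ₀ : Cardinal.{u}) ^ #(Iio r) := by
              simp
            rw [h6]
            exact (power_le_power_right hθω).trans (hθ _ (mk_Iio_lt' ν r))
        _ = ν * θ := by rw [sum_const', mk_ord_toType]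
        _ ≤ θ * θ := mul_le_mul_left hνθ θ
        _ = θ := hθθ
    have h7 : #(Lab ν) = 1 + (1 + #(Σ r : ν.ord.ToType, (Iio r → ℕ))) := by
      simp [Lab]
    rw [h7]
    have h1θ : (1 : Cardinal.{u}) ≤ θ := one_le_aleph0.trans hθω
    calc (1 : Cardinal.{u}) + (1 + #(Σ r : ν.ord.ToType, (Iio r → ℕ))) ≤ θ + (θ + θ) :=
          add_le_add h1θ (add_le_add h1θ h5)
      _ = θ := by rw [add_eq_self hθω, add_eq_self hθω]
  refine WType.cardinalMk_le_of_le ?_
  calc sum (fun a : Lab ν => θ ^ #(ar ν a)) ≤ sum (fun _ : Lab ν => θ) := by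
        refine sum_le_sum _ _ fun a => ?_
        rcases a with a | a | p
        · have : #(ar ν (Sum.inl a)) = 0 := by simp [ar]
          rw [this, power_zero]
          exact one_le_aleph0.trans hθω
        · have : #(ar ν (Sum.inr (Sum.inl a))) = ℵ₀ := by simp [ar]
          rw [this]
          exact hθ _ hω
        · exact hθ _ (mk_Iio_lt' ν p.1)
    _ = #(Lab ν) * θ := by rw [sum_const']
    _ ≤ θ * θ := mul_le_mul_left hlab θ
    _ = θ := hθθ

/-- Closing-off: small weak covers bound the cardinality. -/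
theorem closing_off [T1Space X] [NormalSpace X] [FirstCountableTopology X]
    {ν θ : Cardinal.{u}} (hω : ℵ₀ < ν) (h2 : 2 ≤ θ) (hθ : ∀ μ < ν, θ ^ μ ≤ θ)
    (hwc : ∀ U : Set (Set X), (∀ u ∈ U, IsOpen u) → ⋃₀ U = Set.univ →
      ∃ C ⊆ U, #C < ν ∧ Dense (⋃₀ C)) : #X ≤ θ := by
  classical
  rcases isEmpty_or_nonempty X with hE | ⟨⟨x0⟩⟩
  · rw [mk_eq_zero]
    exact zero_le
  have : T4Space X := {}
  obtain ⟨B, hBo, hBm, hBs⟩ := exists_base (X := X)
  -- the operations
  let op : (Σ a : Lab ν, (ar ν a → X)) → X := fun p =>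
    match p with
    | ⟨Sum.inl _, _⟩ => x0
    | ⟨Sum.inr (Sum.inl _), s⟩ =>
        if h : ∃ q, Tendsto (fun n : ℕ => s ⟨n⟩) atTop (𝓝 q) then h.choose else x0
    | ⟨Sum.inr (Sum.inr p), s⟩ =>
        if h : ∃ q, q ∉ closure (⋃ i : Iio p.1, B (s i) (p.2 i)) then h.choose else x0
  let ev : WType (ar ν) → X := WType.elim X op
  set H : Set X := Set.range ev with hHdef
  have hHcard : #H ≤ θ := mk_range_le.trans (mk_wtype_le hω h2 hθ)
  have hx0 : x0 ∈ H := ⟨WType.mk (Sum.inl PUnit.unit) PEmpty.elim, rfl⟩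
  -- closed under limits of sequences
  have hHc : IsClosed H := by
    refine IsSeqClosed.isClosed ?_
    intro s p hs hp
    choose t ht using hs
    refine ⟨WType.mk (Sum.inr (Sum.inl PUnit.unit)) (fun i => t i.down), ?_⟩
    have hst : (fun n : ℕ => ev (t n)) = s := funext ht
    have hex : ∃ q, Tendsto (fun n : ℕ => ev (t n)) atTop (𝓝 q) := ⟨p, by rw [hst]; exact hp⟩
    have h1 : ev (WType.mk (Sum.inr (Sum.inl PUnit.unit)) (fun i => t i.down)) = hex.choose := by
      change op ⟨Sum.inr (Sum.inl PUnit.unit), fun i => ev (t i.down)⟩ = _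
      simp only [op]
      rw [dif_pos hex]
    rw [h1]
    have h3 : Tendsto (fun n : ℕ => ev (t n)) atTop (𝓝 p) := by
      rw [hst]
      exact hp
    exact tendsto_nhds_unique hex.choose_spec h3
  -- closed under picking
  have hpick : ∀ (r : ν.ord.ToType) (n : Iio r → ℕ) (y : Iio r → X), (∀ i, y i ∈ H) →
      (∃ q, q ∉ closure (⋃ i : Iio r, B (y i) (n i))) →
      ∃ q ∈ H, q ∉ closure (⋃ i : Iio r, B (y i) (n i)) := by
    intro r n y hy hq
    choose t ht using hy
    have hyt : (fun i => ev (t i)) = y := funext ht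
    refine ⟨hq.choose, ⟨WType.mk (Sum.inr (Sum.inr ⟨r, n⟩)) t, ?_⟩, hq.choose_spec⟩
    change op ⟨Sum.inr (Sum.inr ⟨r, n⟩), fun i => ev (t i)⟩ = _
    rw [hyt]
    simp only [op]
    rw [dif_pos hq]
  -- H is everything
  have hHu : H = Set.univ := by
    rw [Set.eq_univ_iff_forall]
    intro p
    by_contra hp
    obtain ⟨O1, O2, hO1, hO2, hHO, hpO, hdis⟩ := normal_separation hHc isClosed_singleton
      (Set.disjoint_singleton_right.2 hp)
    have hpO2 : p ∈ O2 := hpO rfl
    have hn : ∀ x : X, ∃ n, x ∈ H → B x n ⊆ O1 := by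
      intro x
      by_cases hx : x ∈ H
      · obtain ⟨n, hn⟩ := hBs x O1 (hO1.mem_nhds (hHO hx))
        exact ⟨n, fun _ => hn⟩
      · exact ⟨0, fun h => absurd h hx⟩
    choose N hN using hn
    obtain ⟨G, hG, hHG, hGc⟩ := normal_exists_closure_subset hHc
      (isOpen_biUnion (s := H) (f := fun x => B x (N x)) fun x _ => hBo x (N x))
      (fun x hx => mem_biUnion hx (hBm x (N x)))
    obtain ⟨C, hCU, hCν, hCd⟩ := hwc (insert (closure G)ᶜ ((fun x => B x (N x)) '' H)) (by
      rintro u (rfl | ⟨x, hx, rfl⟩)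
      · exact isClosed_closure.isOpen_compl
      · exact hBo x (N x)) (by
      rw [Set.eq_univ_iff_forall]
      intro z
      by_cases hz : z ∈ closure G
      · obtain ⟨x, hx, hzx⟩ := mem_iUnion₂.1 (hGc hz)
        exact ⟨_, Or.inr ⟨x, hx, rfl⟩, hzx⟩
      · exact ⟨_, Or.inl rfl, hz⟩)
    set C' : Set (Set X) := C ∩ ((fun x => B x (N x)) '' H) with hC'
    have hC'ν : #C' < ν := (mk_le_mk_of_subset inter_subset_left).trans_lt hCν
    -- H is contained in the closure of the union of C'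
    have hHC' : H ⊆ closure (⋃₀ C') := by
      intro h hh
      have h3 : ⋃₀ C ⊆ ⋃₀ C' ∪ (closure G)ᶜ := by
        rintro z ⟨w, hw, hzw⟩
        rcases hCU hw with rfl | hw2
        · exact Or.inr hzw
        · exact Or.inl ⟨w, ⟨hw, hw2⟩, hzw⟩
      have h4 : h ∈ closure (⋃₀ C' ∪ (closure G)ᶜ) := closure_mono h3 (hCd h)
      rw [closure_union] at h4
      rcases h4 with h4 | h4
      · exact h4
      · exfalso
        obtain ⟨z, hz1, hz2⟩ := mem_closure_iff.1 h4 G hG (hHG hh)
        exact hz2 (subset_closure hz1)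
    have hpC' : p ∉ closure (⋃₀ C') := by
      intro hpc
      obtain ⟨z, hz1, w, hw, hzw⟩ := mem_closure_iff.1 hpc O2 hO2 hpO2
      obtain ⟨x, hx, rfl⟩ := hw.2
      exact Set.disjoint_left.1 hdis (hN x hx hzw) hz1
    have hC'ne : Nonempty C' := by
      by_contra hne
      rw [not_nonempty_iff, isEmpty_coe_sort] at hne
      have := hHC' hx0
      rw [hne] at this
      simp at this
    obtain ⟨r, hr⟩ := exists_mk_Iio_eq hC'ν
    obtain ⟨e⟩ : Nonempty (Iio r ≃ C') := Cardinal.eq.1 hr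
    have hxs : ∀ i : Iio r, ∃ x ∈ H, B x (N x) = (e i : Set X) := by
      intro i
      obtain ⟨x, hx, hxe⟩ := (e i).2.2
      exact ⟨x, hx, hxe⟩
    choose y hyH hye using hxs
    have hun : (⋃ i : Iio r, B (y i) (N (y i))) = ⋃₀ C' := by
      ext z
      constructor
      · intro hz
        obtain ⟨i, hi⟩ := mem_iUnion.1 hz
        rw [hye i] at hi
        exact ⟨_, (e i).2, hi⟩
      · rintro ⟨w, hw, hzw⟩
        refine mem_iUnion.2 ⟨e.symm ⟨w, hw⟩, ?_⟩
        rw [hye, e.apply_symm_apply]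
        exact hzw
    obtain ⟨q, hqH, hq⟩ := hpick r (fun i => N (y i)) y hyH ⟨p, by rw [hun]; exact hpC'⟩
    rw [hun] at hq
    exact hq (hHC' hqH)
  calc #X = #(Set.univ : Set X) := mk_univ.symm
    _ = #H := by rw [hHu]
    _ ≤ θ := hHcard

end MP3125f4
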