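import Mathlib

/-!
# MP_3125f4_gt : definitions

`CellularLindelof X`: for every cellular family (pairwise disjoint nonempty open sets) there is a
Lindelöf subspace meeting all its members.
`DisjSep D`: the points of `D` can be separated by pairwise disjoint open sets.
-/

open Set Cardinal Topology

universe u

namespace MP3125f4

/-- `X` is cellular-Lindelöf: for every cellular family `U` (a family of nonempty pairwise
disjoint open sets) there is a Lindelöf subspace `L` meeting every member of `U`. -/
def CellularLindelof (X : Type u) [TopologicalSpace X] : Prop :=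
  ∀ U : Set (Set X), (∀ u ∈ U, IsOpen u ∧ u.Nonempty) → U.PairwiseDisjoint id →
    ∃ L : Set X, IsLindelof L ∧ ∀ u ∈ U, (L ∩ u).Nonempty

/-- The points of `D` are separated by pairwise disjoint open sets. -/
def DisjSep {X : Type u} [TopologicalSpace X] (D : Set X) : Prop :=
  ∃ V : X → Set X, (∀ x ∈ D, IsOpen (V x) ∧ x ∈ V x) ∧ D.PairwiseDisjoint V

/-- The Lindelöf number of `K` is at most `ν`: every family of open sets covering `K` has
a subfamily of size at most `ν` covering `K`. -/
def LindelofLE {X : Type u} [TopologicalSpace X] (K : Set X) (ν : Cardinal.{u}) : Prop :=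
  ∀ U : Set (Set X), (∀ u ∈ U, IsOpen u) → K ⊆ ⋃₀ U → ∃ W ⊆ U, #W ≤ ν ∧ K ⊆ ⋃₀ W

/-- `kap` is the least cardinal `κ` such that `2 ^ κ > 𝔠`. -/
noncomputable def kap : Cardinal.{u} := sInf {μ : Cardinal.{u} | 𝔠 < 2 ^ μ}

end MP3125f4
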