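import Pool.Agent.Work.MP_3125f4_gt.Defs

/-!
# MP_3125f4_gt : covering properties (definitions)

All covers of a set `K` are by open subsets of the whole space.
-/

open Set Cardinal Topology

universe u

namespace MP3125f4

variable {X : Type u} [TopologicalSpace X]

/-- `K` is submeta-Lindelöf (`δθ`-refinable): every open cover `U` of `K` has a sequence `V n` of
open refinements covering `K` such that every point of `K` is, for some `n`, in at most countably
many members of `V n`. -/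
def SubmetaLindelof (K : Set X) : Prop :=
  ∀ U : Set (Set X), (∀ u ∈ U, IsOpen u) → K ⊆ ⋃₀ U → ∃ V : ℕ → Set (Set X),
    (∀ n, (∀ v ∈ V n, IsOpen v ∧ ∃ u ∈ U, v ⊆ u) ∧ K ⊆ ⋃₀ V n) ∧
      ∀ x ∈ K, ∃ n, {v ∈ V n | x ∈ v}.Countable

/-- `K` is a `D`-space: for every neighbourhood assignment `N` on `K` there is a closed discrete
set `D ⊆ K` such that the sets `N x`, `x ∈ D`, cover `K`. -/
def DSpace (K : Set X) : Prop :=
  ∀ N : X → Set X, (∀ x ∈ K, IsOpen (N x) ∧ x ∈ N x) →
    ∃ D ⊆ K, IsClosed D ∧ DiscreteTopology D ∧ K ⊆ ⋃ x ∈ D, N x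

/-- Every open cover of `K` has a subcover whose size is at most the size of a countable union
of closed discrete subsets of `K` (or countable). -/
def LindelofByExtent (K : Set X) : Prop :=
  ∀ U : Set (Set X), (∀ u ∈ U, IsOpen u) → K ⊆ ⋃₀ U → ∃ W ⊆ U, K ⊆ ⋃₀ W ∧
    ∃ D : ℕ → Set X, (∀ n, D n ⊆ K ∧ IsClosed (D n) ∧ DiscreteTopology (D n)) ∧
      #W ≤ max ℵ₀ #(⋃ n, D n)

/-- `K` is realcompact: every ring homomorphism `C(K, ℝ) → ℝ` is the evaluation at a point
of `K`. -/
def RealcompactSet (K : Set X) : Prop :=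
  ∀ e : C(K, ℝ) →+* ℝ, ∃ x : K, ∀ f : C(K, ℝ), e f = f x

end MP3125f4
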