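import Pool.Agent.Work.MP_3125f4_gt.CovDefs
import Pool.Agent.Work.MP_3125f4_gt.Main

/-!
# MP_3125f4_gt : covering properties
-/

open Set Cardinal Topology

universe u

namespace MP3125f4

variable {X : Type u} [TopologicalSpace X]

/-- subsets of closed discrete sets are closed -/
theorem isClosed_of_subset {D E : Set X} (hD : IsClosed D) (hd : DiscreteTopology D)
    (h : E ⊆ D) : IsClosed E := by
  have h1 : IsClosed (Subtype.val ⁻¹' E : Set D) := isClosed_discrete _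
  have h2 := hD.isClosedEmbedding_subtypeVal.isClosedMap _ h1
  have h3 : Subtype.val '' (Subtype.val ⁻¹' E : Set D) = E := by
    rw [Subtype.image_preimage_coe]
    exact inter_eq_right.2 h
  rwa [h3] at h2

/-- a set such that every point of the space has a neighbourhood containing at most one of its
points is closed and discrete -/
theorem closed_discrete_of_nhds [T1Space X] {D : Set X}
    (h : ∀ x : X, ∃ O, IsOpen O ∧ x ∈ O ∧ (O ∩ D).Subsingleton) :
    IsClosed D ∧ DiscreteTopology D := by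
  constructor
  · rw [← isOpen_compl_iff, isOpen_iff_mem_nhds]
    intro x hx
    obtain ⟨O, hO, hxO, hs⟩ := h x
    have h1 : IsOpen (O \ (O ∩ D)) := hO.sdiff hs.finite.isClosed
    refine Filter.mem_of_superset (h1.mem_nhds ⟨hxO, fun h => hx h.2⟩) ?_
    intro y hy hyD
    exact hy.2 ⟨hy.1, hyD⟩
  · rw [discreteTopology_subtype_iff']
    intro x hx
    obtain ⟨O, hO, hxO, hs⟩ := h x
    refine ⟨O, hO, ?_⟩
    ext y
    constructor
    · intro hy
      exact hs hy ⟨hxO, hx⟩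
    · rintro rfl
      exact ⟨hxO, hx⟩

/-- Jones' lemma for closures of small sets -/
theorem jones [NormalSpace X] {A D : Set X} (hDA : D ⊆ closure A) (hD : IsClosed D)
    (hd : DiscreteTopology D) : (2 : Cardinal.{u}) ^ #D ≤ 2 ^ #A := by
  have h : ∀ E : Set D, ∃ O : Set X, IsOpen O ∧ Subtype.val '' E ⊆ O ∧
      Disjoint (closure O) (Subtype.val '' Eᶜ) := by
    intro E
    have h1 : IsClosed (Subtype.val '' E : Set X) :=
      isClosed_of_subset hD hd (Subtype.coe_image_subset _ _)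
    have h2 : IsClosed (Subtype.val '' Eᶜ : Set X) :=
      isClosed_of_subset hD hd (Subtype.coe_image_subset _ _)
    obtain ⟨O, hO, hEO, hcl⟩ := normal_exists_closure_subset h1 h2.isOpen_compl (by
      rintro _ ⟨x, hx, rfl⟩ ⟨y, hy, hyx⟩
      have := Subtype.ext hyx
      subst this
      exact hy hx)
    exact ⟨O, hO, hEO, Set.disjoint_left.2 fun z hz hz2 => hcl hz hz2⟩
  choose O hO hEO hdis using h
  have hinj : Function.Injective (fun E : Set D => {a : A | (a : X) ∈ O E}) := by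
    have key : ∀ E F : Set D, {a : A | (a : X) ∈ O E} = {a : A | (a : X) ∈ O F} → E ⊆ F := by
      intro E F hEF x hx
      by_contra hxF
      have h1 : (x : X) ∈ closure (O E ∩ A) :=
        mem_closure_iff.2 fun G hG hxG => by
          obtain ⟨y, hy1, hy2⟩ := mem_closure_iff.1 (hDA x.2) (G ∩ O E) (hG.inter (hO E))
            ⟨hxG, hEO E ⟨x, hx, rfl⟩⟩
          exact ⟨y, hy1.1, hy1.2, hy2⟩
      have h2 : O E ∩ A ⊆ O F := by
        rintro y ⟨hy, hyA⟩
        have : (⟨y, hyA⟩ : A) ∈ {a : A | (a : X) ∈ O E} := hy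
        rw [hEF] at this
        exact this
      exact Set.disjoint_left.1 (hdis F) (closure_mono h2 h1) ⟨x, hxF, rfl⟩
    intro E F hEF
    exact (key E F hEF).antisymm (key F E hEF.symm)
  have h1 := mk_le_of_injective hinj
  rwa [mk_set, mk_set] at h1

theorem lindelofByExtent_of_dSpace {K : Set X} (hK : DSpace K) : LindelofByExtent K := by
  intro U hU hcov
  choose! w hw hxw using fun x (hx : x ∈ K) => mem_sUnion.1 (hcov hx)
  obtain ⟨D, hDK, hDc, hDd, hDcov⟩ := hK w fun x hx => ⟨hU _ (hw x hx), hxw x hx⟩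
  refine ⟨w '' D, ?_, ?_, fun _ => D, fun _ => ⟨hDK, hDc, hDd⟩, ?_⟩
  · rintro _ ⟨x, hx, rfl⟩
    exact hw x (hDK hx)
  · intro x hx
    obtain ⟨y, hy, hxy⟩ := mem_iUnion₂.1 (hDcov hx)
    exact ⟨w y, ⟨y, hy, rfl⟩, hxy⟩
  · rw [iUnion_const]
    exact mk_image_le.trans (le_max_right _ _)

theorem lindelofByExtent_of_submetaLindelof [T1Space X] {K : Set X} (hKc : IsClosed K)
    (hK : SubmetaLindelof K) : LindelofByExtent K := by
  classical
  intro U hU hcov
  obtain ⟨V, hV, hVc⟩ := hK U hU hcov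
  have h : ∀ n, ∃ D : Set X, D ⊆ K ∧ IsClosed D ∧ DiscreteTopology D ∧
      (∀ x ∈ D, {v ∈ V n | x ∈ v}.Countable) ∧
      ∀ x ∈ K, {v ∈ V n | x ∈ v}.Countable → ∃ y ∈ D, ∃ v ∈ V n, x ∈ v ∧ y ∈ v := by
    intro n
    obtain ⟨D, hD⟩ := zorn_subset
      {D : Set X | (∀ x ∈ D, x ∈ K ∧ {v ∈ V n | x ∈ v}.Countable) ∧
        ∀ v ∈ V n, (v ∩ D).Subsingleton} (by
      intro c hc hchain
      refine ⟨⋃₀ c, ⟨?_, ?_⟩, fun s hs => subset_sUnion_of_mem hs⟩
      · rintro x ⟨s, hs, hx⟩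
        exact (hc hs).1 x hx
      · rintro v hv x ⟨hxv, s, hs, hxs⟩ y ⟨hyv, t, ht, hyt⟩
        rcases hchain.total hs ht with h | h
        · exact (hc ht).2 v hv ⟨hxv, h hxs⟩ ⟨hyv, hyt⟩
        · exact (hc hs).2 v hv ⟨hxv, hxs⟩ ⟨hyv, h hyt⟩)
    have hDK : D ⊆ K := fun x hx => (hD.prop.1 x hx).1
    have hcd := closed_discrete_of_nhds (D := D) (by
      intro x
      by_cases hx : x ∈ K
      · obtain ⟨v, hv, hxv⟩ := (hV n).2 hx
        exact ⟨v, ((hV n).1 v hv).1, hxv, hD.prop.2 v hv⟩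
      · refine ⟨Kᶜ, hKc.isOpen_compl, hx, ?_⟩
        rintro y ⟨hy, hyD⟩
        exact absurd (hDK hyD) hy)
    refine ⟨D, hDK, hcd.1, hcd.2, fun x hx => (hD.prop.1 x hx).2, ?_⟩
    intro x hx hxc
    by_contra hcon
    push Not at hcon
    have hxD : x ∉ D := by
      intro hxD
      obtain ⟨v, hv, hxv⟩ := (hV n).2 hx
      exact hcon x hxD v hv hxv hxv
    have hins : insert x D ∈ {D : Set X | (∀ x ∈ D, x ∈ K ∧ {v ∈ V n | x ∈ v}.Countable) ∧
        ∀ v ∈ V n, (v ∩ D).Subsingleton} := by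
      refine ⟨?_, ?_⟩
      · rintro y (rfl | hy)
        · exact ⟨hx, hxc⟩
        · exact hD.prop.1 y hy
      · intro v hv
        by_cases hxv : x ∈ v
        · rintro y ⟨hyv, rfl | hy⟩ z ⟨hzv, rfl | hz⟩
          · rfl
          · exact absurd hzv (hcon z hz v hv hxv)
          · exact absurd hyv (hcon y hy v hv hxv)
          · exact absurd hyv (hcon y hy v hv hxv)
        · rintro y ⟨hyv, rfl | hy⟩ z ⟨hzv, rfl | hz⟩
          · rfl
          · exact absurd hyv hxv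
          · exact absurd hzv hxv
          · exact hD.prop.2 v hv ⟨hyv, hy⟩ ⟨hzv, hz⟩
    exact hxD (hD.le_of_ge hins (subset_insert _ _) (mem_insert _ _))
  choose D hDK hDc hDd hDcount hDst using h
  choose! uV huV hvu using fun (v : Set X) (hv : ∃ n, v ∈ V n) => ((hV hv.choose).1 v hv.choose_spec).2
  refine ⟨⋃ n, ⋃ x ∈ D n, uV '' {v ∈ V n | x ∈ v}, ?_, ?_, D,
    fun n => ⟨hDK n, hDc n, hDd n⟩, ?_⟩
  · refine iUnion_subset fun n => iUnion₂_subset fun x hx => ?_
    rintro _ ⟨v, hv, rfl⟩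
    exact huV v ⟨n, hv.1⟩
  · intro x hx
    obtain ⟨n, hn⟩ := hVc x hx
    obtain ⟨y, hy, v, hv, hxv, hyv⟩ := hDst n x hx hn
    refine ⟨uV v, ?_, hvu v ⟨n, hv⟩ hxv⟩
    exact mem_iUnion.2 ⟨n, mem_iUnion₂.2 ⟨y, hy, v, ⟨hv, hyv⟩, rfl⟩⟩
  · have h1 : (⋃ n, ⋃ x ∈ D n, uV '' {v ∈ V n | x ∈ v}) =
        ⋃ p : (Σ n : ℕ, (D n : Set X)), uV '' {v ∈ V p.1 | (p.2 : X) ∈ v} := by
      ext w
      simp only [mem_iUnion]
      constructor
      · rintro ⟨n, x, hx, hw⟩
        exact ⟨⟨n, ⟨x, hx⟩⟩, hw⟩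
      · rintro ⟨⟨n, x⟩, hw⟩
        exact ⟨n, x.1, x.2, hw⟩
    rw [h1]
    have h2 : #(Σ n : ℕ, (D n : Set X)) ≤ max ℵ₀ #(⋃ n, D n) := by
      have h3 : #(Σ n : ℕ, (D n : Set X)) ≤ #(ℕ × (⋃ n, D n : Set X)) := by
        refine mk_le_of_injective (f := fun p => (p.1, ⟨p.2.1, mem_iUnion.2 ⟨p.1, p.2.2⟩⟩)) ?_
        rintro ⟨n, x, hx⟩ ⟨m, y, hy⟩ h
        simp only [Prod.mk.injEq, Subtype.mk.injEq] at h
        obtain ⟨h4, h5⟩ := h
        subst h4
        subst h5
        rfl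
      refine h3.trans ?_
      rw [mk_prod]
      simp only [mk_eq_aleph0, lift_aleph0, lift_uzero]
      exact (mul_le_max _ _).trans (by simp)
    refine (mk_iUnion_le_sum_mk).trans ?_
    refine (sum_le_sum _ (fun _ => (ℵ₀ : Cardinal.{u})) ?_).trans ?_
    · rintro ⟨n, x⟩
      refine mk_image_le.trans ?_
      exact (hDcount n x.1 x.2).le_aleph0
    · rw [sum_const, lift_aleph0, lift_id]
      refine (mul_le_mul_left h2 _).trans ?_
      refine (mul_le_max _ _).trans ?_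
      simp

/-- closures of small sets with the covering property have small Lindelöf number -/
theorem lindelofLE_closure [NormalSpace X] {A : Set X} (hA : #A < kap)
    (h : LindelofByExtent (closure A)) : LindelofLE (closure A) kap := by
  intro U hU hcov
  obtain ⟨W, hWU, hcovW, D, hD, hWD⟩ := h U hU hcov
  refine ⟨W, hWU, ?_, hcovW⟩
  have h1 : ∀ n, #(D n) < kap := by
    intro n
    rw [lt_kap_iff]
    exact (jones (hD n).1 (hD n).2.1 (hD n).2.2).trans (two_pow_le_of_lt_kap hA)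
  have h2 : #(⋃ n, D n) < (kap : Cardinal.{u}) := by
    have h3 : (⋃ n, D n) = ⋃ n : ULift.{u} ℕ, D n.down := by
      ext x
      simp
    rw [h3, card_iUnion_lt_iff_forall_of_isRegular isRegular_kap (by simpa using aleph0_lt_kap)]
    exact fun n => h1 n.down
  exact hWD.trans (max_lt aleph0_lt_kap h2).le

end MP3125f4
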