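import Pool.Agent.Work.MP_3125f4_gt.ClosingOff

/-!
# MP_3125f4_gt : weak covers of size `< ν`

If `ν` is regular uncountable and closures of disjointly separated subsets of size `< ν` of
a dense set `Z` have Lindelöf number `≤ ν`, then every open cover has a subfamily of size `< ν` with
dense union.
-/

open Set Cardinal Topology Filter

universe u

namespace MP3125f4

/-- sets of size `< ν` are bounded in `ν.ord.ToType` if `ν` is regular -/
theorem exists_bound {ν : Cardinal.{u}} (hν : ν.IsRegular) {S : Set ν.ord.ToType}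
    (hS : #S < ν) : ∃ b : ν.ord.ToType, ∀ s ∈ S, s < b := by
  by_contra hcon
  push Not at hcon
  have h1 : IsCofinal S := fun b => by
    obtain ⟨s, hs, hbs⟩ := hcon b
    exact ⟨s, hs, hbs⟩
  have h2 := Order.cof_le h1
  rw [Ordinal.cof_toType, hν.cof_ord] at h2
  exact absurd h2 (not_le.2 hS)

/-- well-founded recursion with a non-deterministic step -/
theorem exists_rec {I : Type u} {X : Type u} [LinearOrder I] [WellFoundedLT I] [Nonempty X]
    (P : I → (I → X) → X → Prop)
    (hP : ∀ a f g, (∀ b < a, f b = g b) → ∀ z, P a f z → P a g z)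
    (hex : ∀ a f, ∃ z, P a f z) : ∃ x : I → X, ∀ a, P a x (x a) := by
  classical
  choose F hF using hex
  obtain ⟨d⟩ := ‹Nonempty X›
  let step : (a : I) → ((b : I) → b < a → X) → X := fun a f =>
    F a (fun b => if h : b < a then f b h else d)
  let x : I → X := (wellFounded_lt (α := I)).fix step
  refine ⟨x, fun a => ?_⟩
  have h1 : x a = F a (fun b => if b < a then x b else d) := by
    change (wellFounded_lt (α := I)).fix step a = _
    rw [WellFounded.fix_eq]
    change F a (fun b => if h : b < a then x b else d) = _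
    congr 1
  have h2 := hF a (fun b => if b < a then x b else d)
  rw [← h1] at h2
  refine hP a _ _ ?_ _ h2
  intro b hb
  simp [hb]

variable {X : Type u} [TopologicalSpace X]

/-- The main combinatorial lemma. -/
theorem weak_cover [T1Space X] [NormalSpace X] [FirstCountableTopology X]
    (hX : CellularLindelof X) {ν : Cardinal.{u}} (hν : ν.IsRegular) (hω : ℵ₀ < ν)
    {Z : Set X} (hZ : Dense Z)
    (hL : ∀ A ⊆ Z, DisjSep A → #A < ν → LindelofLE (closure A) ν)
    {U : Set (Set X)} (hU : ∀ u ∈ U, IsOpen u) (hcov : ⋃₀ U = Set.univ) :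
    ∃ C ⊆ U, #C < ν ∧ Dense (⋃₀ C) := by
  classical
  by_contra hcon
  push Not at hcon
  have hNe : Nonempty X := by
    by_contra hE
    rw [not_nonempty_iff] at hE
    refine hcon ∅ (empty_subset _) (by simpa using hν.pos) ?_
    intro x
    exact (hE.false x).elim
  obtain ⟨V, hV, hVd, hVdense⟩ := exists_maximal_cellular hU hcov
  choose! uV huV hvu using fun v hv => (hV v hv).2.2
  -- the basic extension step
  have hstep : ∀ C ⊆ U, #C < ν → ∀ T ⊆ V, #T < ν →
      ∃ z, z ∈ Z ∧ z ∈ ⋃₀ V ∧ z ∉ closure (⋃₀ C) ∧ z ∉ ⋃₀ T := by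
    intro C hC hCν T hT hTν
    have h1 : #(C ∪ uV '' T : Set (Set X)) < ν := by
      refine (mk_union_le _ _).trans_lt ?_
      exact add_lt_of_lt hν.aleph0_le hCν (mk_image_le.trans_lt hTν)
    have h2 := hcon (C ∪ uV '' T) (union_subset hC (by
      rintro _ ⟨t, ht, rfl⟩
      exact huV t (hT ht))) h1
    have h3 : ((closure (⋃₀ (C ∪ uV '' T)))ᶜ).Nonempty := by
      rw [nonempty_compl]
      intro h
      exact h2 (dense_iff_closure_eq.2 h)
    obtain ⟨z0, hz0⟩ := hVdense.inter_open_nonempty _ isClosed_closure.isOpen_compl h3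
    obtain ⟨hz0c, v, hv, hz0v⟩ := hz0
    obtain ⟨z, hz, hzZ⟩ := hZ.inter_open_nonempty _
      (isClosed_closure.isOpen_compl.inter (hV v hv).1) ⟨z0, hz0c, hz0v⟩
    refine ⟨z, hzZ, ⟨v, hv, hz.2⟩, ?_, ?_⟩
    · intro h
      exact hz.1 (closure_mono (sUnion_subset_sUnion subset_union_left) h)
    · rintro ⟨t, ht, hzt⟩
      refine hz.1 (subset_closure ⟨uV t, Or.inr ⟨t, ht, rfl⟩, hvu t (hT ht) hzt⟩)
  -- chosen small subcovers for closures of small sets
  have hW : ∀ A : Set X, ∃ W ⊆ U, #W ≤ ν ∧ (A ⊆ Z → DisjSep A → #A < ν → closure A ⊆ ⋃₀ W) := by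
    intro A
    by_cases h : A ⊆ Z ∧ DisjSep A ∧ #A < ν
    · obtain ⟨W, h1, h2, h3⟩ := hL A h.1 h.2.1 h.2.2 U hU (by rw [hcov]; exact subset_univ _)
      exact ⟨W, h1, h2, fun _ _ _ => h3⟩
    · refine ⟨∅, empty_subset _, by simp, fun h1 h2 h3 => absurd ⟨h1, h2, h3⟩ h⟩
  choose W hWU hWν hWc using hW
  have hI : Nonempty ν.ord.ToType := nonempty_ord_toType hν.ne_zero
  have he : ∀ A : Set X, ∃ c : Set X → ν.ord.ToType, InjOn c (W A) := by
    intro A
    obtain ⟨g⟩ : Nonempty ((W A : Set (Set X)) ↪ ν.ord.ToType) := by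
      rw [← Cardinal.le_def, mk_ord_toType]
      exact hWν A
    refine ⟨fun w => if h : w ∈ W A then g ⟨w, h⟩ else hI.some, ?_⟩
    intro w hw w' hw' hww
    simp only [dif_pos hw, dif_pos hw'] at hww
    exact congrArg Subtype.val (g.injective hww)
  choose e hinje using he
  -- the small families used at stage `a`
  let Cs : ν.ord.ToType → (ν.ord.ToType → X) → Set (Set X) := fun a f =>
    {w | ∃ b ≤ a, w ∈ W (f '' Iio b) ∧ e (f '' Iio b) w < a}
  let T : ν.ord.ToType → (ν.ord.ToType → X) → Set (Set X) := fun a f =>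
    {v | v ∈ V ∧ ∃ b < a, f b ∈ v}
  have hIic : ∀ a : ν.ord.ToType, #(Iic a) < ν := by
    intro a
    have h1 : Iic a = insert a (Iio a) := by
      ext z
      simp only [mem_Iic, mem_insert_iff, mem_Iio]
      exact le_iff_eq_or_lt
    rw [h1]
    refine (mk_insert_le).trans_lt ?_
    exact add_lt_of_lt hν.aleph0_le (mk_Iio_lt' ν a) (one_lt_aleph0.trans_le hν.aleph0_le)
  have hCsU : ∀ a f, Cs a f ⊆ U := by
    rintro a f w ⟨b, _, h, _⟩
    exact hWU _ h
  have hCsν : ∀ a f, #(Cs a f) < ν := by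
    intro a f
    have h1 : ∀ w : Cs a f, ∃ p : Iic a × Iio a, (w : Set X) ∈ W (f '' Iio (p.1 : ν.ord.ToType)) ∧
        e (f '' Iio (p.1 : ν.ord.ToType)) w = (p.2 : ν.ord.ToType) := by
      rintro ⟨w, b, hb, h, hlt⟩
      exact ⟨(⟨b, hb⟩, ⟨_, hlt⟩), h, rfl⟩
    choose p hp hpe using h1
    have hinj : Function.Injective p := by
      intro w w' hww
      have h2 := hpe w
      have hw := hp w
      rw [hww] at h2 hw
      exact Subtype.ext (hinje _ hw (hp w') (h2.trans (hpe w').symm))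
    refine (mk_le_of_injective hinj).trans_lt ?_
    rw [mk_prod, lift_id, lift_id]
    exact mul_lt_of_lt hν.aleph0_le (hIic a) (mk_Iio_lt' ν a)
  have hTV : ∀ a f, T a f ⊆ V := fun a f v hv => hv.1
  have hTν : ∀ a f, #(T a f) < ν := by
    intro a f
    have h1 : ∀ v : T a f, ∃ b : Iio a, f b ∈ (v : Set X) := by
      rintro ⟨v, _, b, hb, hfb⟩
      exact ⟨⟨b, hb⟩, hfb⟩
    choose q hq using h1
    have hinj : Function.Injective q := by
      intro v v' hvv
      by_contra hne
      have h2 : (v : Set X) ≠ v' := fun h => hne (Subtype.ext h)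
      have h3 : Disjoint (v : Set X) v' := hVd v.2.1 v'.2.1 h2
      have h4 := hq v
      rw [hvv] at h4
      exact Set.disjoint_left.1 h3 h4 (hq v')
    exact (mk_le_of_injective hinj).trans_lt (mk_Iio_lt' ν a)
  -- the recursion
  obtain ⟨x, hx⟩ := exists_rec (I := ν.ord.ToType) (X := X)
    (fun a f z => z ∈ Z ∧ z ∈ ⋃₀ V ∧ z ∉ closure (⋃₀ (Cs a f)) ∧ z ∉ ⋃₀ (T a f)) (by
      intro a f g hfg z hz
      have himg : ∀ b ≤ a, f '' Iio b = g '' Iio b := by
        intro b hb
        exact image_congr fun c hc => hfg c (lt_of_lt_of_le hc hb)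
      have h1 : Cs a g ⊆ Cs a f := by
        rintro w ⟨b, hb, h, hlt⟩
        rw [← himg b hb] at h hlt
        exact ⟨b, hb, h, hlt⟩
      have h2 : T a g ⊆ T a f := by
        rintro v ⟨hv, b, hb, hgb⟩
        exact ⟨hv, b, hb, by rw [hfg b hb]; exact hgb⟩
      exact ⟨hz.1, hz.2.1, fun h => hz.2.2.1 (closure_mono (sUnion_subset_sUnion h1) h),
        fun h => hz.2.2.2 (sUnion_subset_sUnion h2 h)⟩)
    (fun a f => hstep _ (hCsU a f) (hCsν a f) _ (hTV a f) (hTν a f))
  have hxZ : ∀ a, x a ∈ Z := fun a => (hx a).1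
  choose v hvV hxv using fun a => (hx a).2.1
  -- distinct members of `V` for distinct indices
  have hvne : ∀ a b, b < a → v a ≠ v b := by
    intro a b hba h
    refine (hx a).2.2.2 ⟨v b, ⟨hvV b, b, hba, hxv b⟩, ?_⟩
    rw [← h]
    exact hxv a
  have hvdis : ∀ a b, a ≠ b → Disjoint (v a) (v b) := by
    intro a b hab
    refine hVd (hvV a) (hvV b) ?_
    rcases lt_or_gt_of_ne hab with h | h
    · exact fun h' => hvne b a h h'.symm
    · exact hvne a b h
  have hxinj : Function.Injective x := by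
    intro a b hab
    by_contra hne
    refine Set.disjoint_left.1 (hvdis a b hne) (hxv a) ?_
    rw [hab]
    exact hxv b
  have hsep : DisjSep (range x) := by
    refine ⟨fun z => v (Function.invFun x z), ?_, ?_⟩
    · rintro _ ⟨a, rfl⟩
      simp only [Function.leftInverse_invFun hxinj a]
      exact ⟨(hV _ (hvV a)).1, hxv a⟩
    · rintro _ ⟨a, rfl⟩ _ ⟨b, rfl⟩ hne
      change Disjoint (v (Function.invFun x (x a))) (v (Function.invFun x (x b)))
      rw [Function.leftInverse_invFun hxinj a, Function.leftInverse_invFun hxinj b]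
      exact hvdis a b fun h => hne (by rw [h])
  -- the closure of the range
  have hA : ∀ b : ν.ord.ToType, x '' Iio b ⊆ Z := by
    rintro b _ ⟨c, _, rfl⟩
    exact hxZ c
  have hAν : ∀ b : ν.ord.ToType, #(x '' Iio b) < ν := fun b =>
    mk_image_le.trans_lt (mk_Iio_lt' ν b)
  have hAs : ∀ b : ν.ord.ToType, DisjSep (x '' Iio b) := fun b =>
    hsep.mono (image_subset_range _ _)
  have hcl : closure (range x) ⊆ ⋃₀ (⋃ b : ν.ord.ToType, W (x '' Iio b)) := by
    intro y hy
    obtain ⟨s, hs, hsy⟩ := mem_closure_iff_seq_limit.1 hy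
    choose i hi using hs
    have h1 : #(range i) < ν := by
      refine lt_of_le_of_lt ?_ hω
      exact (countable_range i).le_aleph0
    obtain ⟨b, hb⟩ := exists_bound hν h1
    have h2 : y ∈ closure (x '' Iio b) := by
      refine mem_closure_of_tendsto hsy (Eventually.of_forall fun n => ?_)
      exact ⟨i n, hb _ ⟨n, rfl⟩, hi n⟩
    obtain ⟨w, hw, hyw⟩ := hWc _ (hA b) (hAs b) (hAν b) h2
    exact ⟨w, mem_iUnion.2 ⟨b, hw⟩, hyw⟩
  obtain ⟨C, hCW, hCc, hCx⟩ := catching hX isClosed_closure (W := ⋃ b, W (x '' Iio b)) (by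
    intro w hw
    obtain ⟨b, hb⟩ := mem_iUnion.1 hw
    exact hU w (hWU _ hb)) hcl subset_closure hsep
  -- `C` is contained in some stage
  have h3 : ∀ w : C, ∃ b : ν.ord.ToType, (w : Set X) ∈ W (x '' Iio b) := fun w =>
    mem_iUnion.1 (hCW w.2)
  choose β hβ using h3
  have h4 : #(range β ∪ range (fun w : C => e (x '' Iio (β w)) w) : Set ν.ord.ToType) < ν := by
    have := hCc.to_subtype
    refine lt_of_le_of_lt ?_ hω
    exact ((countable_range β).union (countable_range _)).le_aleph0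
  obtain ⟨a, ha⟩ := exists_bound hν h4
  have h5 : C ⊆ Cs a x := by
    intro w hw
    exact ⟨β ⟨w, hw⟩, (ha _ (Or.inl ⟨_, rfl⟩)).le, hβ ⟨w, hw⟩, ha _ (Or.inr ⟨⟨w, hw⟩, rfl⟩)⟩
  exact (hx a).2.2.1 (closure_mono (sUnion_subset_sUnion h5) (hCx ⟨a, rfl⟩))

end MP3125f4
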