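import Pool.Agent.Work.MP_3125f4_gt.Covering

/-!
# MP_3125f4_gt : a weak diamond principle and Jones' lemma for normal first countable
cellular-Lindelöf spaces
-/

open Set Cardinal Topology Filter

universe u

namespace MP3125f4

/-- iterated guessing -/
private def iter {I : Type u} (H : (I → Bool) → I → ℕ → Bool) (f : I → Bool) :
    List ℕ → I → Bool
  | [] => f
  | k :: s => fun a => H (iter H f s) a k

/-- A weak diamond principle (in the spirit of Devlin and Shelah). -/
theorem weak_diamond {I : Type u} [LinearOrder I] [WellFoundedLT I]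
    (hb : ∀ S : Set I, S.Countable → ∃ b, ∀ s ∈ S, s < b)
    (h1 : ∀ a : I, (2 : Cardinal.{u}) ^ #(Iio a) ≤ 𝔠) (hI : #I ≤ 𝔠)
    (h2 : (𝔠 : Cardinal.{u}) < 2 ^ #I) (F : I → (I → ℕ → Bool) → Bool)
    (hF : ∀ a f g, (∀ b < a, f b = g b) → F a f = F a g) :
    ∃ g : I → Bool, ∀ (f : I → ℕ → Bool) (c : I), ∃ a ≥ c, F a f = g a := by
  classical
  by_contra hcon
  push Not at hcon
  choose H Γ hHΓ using hcon
  have hδ : ∀ f : I → Bool, ∃ d : I, ∀ s : List ℕ, Γ (iter H f s) < d := by
    intro f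
    obtain ⟨d, hd⟩ := hb (range fun s : List ℕ => Γ (iter H f s)) (countable_range _)
    exact ⟨d, fun s => hd _ ⟨s, rfl⟩⟩
  choose δ hδ using hδ
  let Φ : (I → Bool) → Σ d : I, (List ℕ → Iio d → Bool) := fun f =>
    ⟨δ f, fun s b => iter H f s b⟩
  have hΦ : Function.Injective Φ := by
    intro f f' hff
    have e1 : δ f = δ f' := congrArg Sigma.fst hff
    have e2 : ∀ (s : List ℕ) (a : I), a < δ f → iter H f s a = iter H f' s a := by
      have key : ∀ (d1 d2 : I) (P : List ℕ → Iio d1 → Bool) (Q : List ℕ → Iio d2 → Bool),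
          (⟨d1, P⟩ : Σ d : I, (List ℕ → Iio d → Bool)) = ⟨d2, Q⟩ →
          ∀ s a (ha1 : a < d1) (ha2 : a < d2), P s ⟨a, ha1⟩ = Q s ⟨a, ha2⟩ := by
        intro d1 d2 P Q h
        cases h
        intro s a _ _
        rfl
      intro s a ha
      exact key _ _ _ _ hff s a ha (e1 ▸ ha)
    have e3 : ∀ a : I, ∀ s : List ℕ, iter H f s a = iter H f' s a := by
      intro a
      induction a using WellFoundedLT.induction with
      | _ a ih =>
        intro s
        by_cases ha : a < δ f
        · exact e2 s a ha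
        · rw [not_lt] at ha
          have h3 := hHΓ (iter H f s) a ((hδ f s).le.trans ha)
          have h4 := hHΓ (iter H f' s) a ((hδ f' s).le.trans (e1 ▸ ha))
          have h5 : F a (H (iter H f s)) = F a (H (iter H f' s)) := by
            refine hF a _ _ fun b hba => ?_
            funext k
            exact ih b hba (k :: s)
          rw [h5] at h3
          revert h3 h4
          cases F a (H (iter H f' s)) <;> cases iter H f s a <;> cases iter H f' s a <;> simp
    funext a
    exact e3 a []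
  have h3 := mk_le_of_injective hΦ
  have h4 : #(I → Bool) = 2 ^ #I := by simp
  rw [h4, mk_sigma] at h3
  have h5 : sum (fun d : I => #(List ℕ → Iio d → Bool)) ≤ 𝔠 := by
    refine (sum_le_sum _ (fun _ : I => (𝔠 : Cardinal.{u})) fun d => ?_).trans ?_
    · have h6 : #(List ℕ → Iio d → Bool) = ((2 : Cardinal.{u}) ^ #(Iio d)) ^ (ℵ₀ : Cardinal.{u}) := by
        simp
      rw [h6]
      exact (power_le_power_right (h1 d)).trans continuum_power_aleph0.le
    · rw [sum_const']
      exact (mul_le_mul_left hI _).trans continuum_mul_self.le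
  exact absurd (h3.trans h5) (not_le.2 h2)

variable {X : Type u} [TopologicalSpace X]

/-- Jones' lemma for normal first countable cellular-Lindelöf spaces. -/
theorem mk_closed_discrete_lt_kap [T1Space X] [NormalSpace X] [FirstCountableTopology X]
    (hX : CellularLindelof X) {E : Set X} (hE : IsClosed E) (hd : DiscreteTopology E) :
    #E < kap := by
  classical
  by_contra hcon
  rw [not_lt] at hcon
  set I : Type u := (kap : Cardinal.{u}).ord.ToType with hIdef
  have hmkI : #I = kap := mk_ord_toType _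
  have hIne : Nonempty I := nonempty_ord_toType isRegular_kap.ne_zero
  obtain ⟨em⟩ : Nonempty (I ↪ E) := by
    rw [← Cardinal.le_def, hmkI]
    exact hcon
  let ι : I → X := fun i => (em i : X)
  have hι : Function.Injective ι := fun i j h => em.injective (Subtype.ext h)
  have hιE : ∀ S : Set I, IsClosed (ι '' S) := fun S =>
    isClosed_of_subset hE hd (by
      rintro _ ⟨i, _, rfl⟩
      exact (em i).2)
  obtain ⟨B, hBo, hBm, hBs⟩ := exists_base (X := X)
  -- decoding of the number
  let dec : (ℕ → Bool) → ℕ := fun p => sInf {n | p (n + 1) = true}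
  let F : I → (I → ℕ → Bool) → Bool := fun a f =>
    decide (ι a ∈ closure (⋃ b ∈ {b : I | b < a ∧ f b 0 = true}, B (ι b) (dec (f b))))
  obtain ⟨g, hg⟩ := weak_diamond (I := I) (by
      intro S hS
      exact exists_bound isRegular_kap (hS.le_aleph0.trans_lt aleph0_lt_kap))
    (fun a => two_pow_le_of_lt_kap (mk_Iio_lt' _ a)) (hmkI.le.trans kap_le_cont)
    (by rw [hmkI]; exact cont_lt_two_pow_kap) F (by
      intro a f f' hff
      have : (⋃ b ∈ {b : I | b < a ∧ f b 0 = true}, B (ι b) (dec (f b))) =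
          ⋃ b ∈ {b : I | b < a ∧ f' b 0 = true}, B (ι b) (dec (f' b)) := by
        ext z
        simp only [mem_iUnion, mem_ofPred_eq]
        constructor
        · rintro ⟨b, ⟨hb, h0⟩, hz⟩
          rw [hff b hb] at h0 hz
          exact ⟨b, ⟨hb, h0⟩, hz⟩
        · rintro ⟨b, ⟨hb, h0⟩, hz⟩
          rw [← hff b hb] at h0 hz
          exact ⟨b, ⟨hb, h0⟩, hz⟩
      simp only [F]
      rw [this])
  let A : Set I := {a | g a = false}
  obtain ⟨O1, O2, hO1, hO2, hA1, hA2, hdis⟩ := normal_separation (hιE A) (hιE Aᶜ) (by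
    rw [Set.disjoint_left]
    rintro _ ⟨i, hi, rfl⟩ ⟨j, hj, hij⟩
    rw [hι hij] at hj
    exact hj hi)
  have hh : ∀ a : I, ∃ n, (a ∈ A → B (ι a) n ⊆ O1) ∧ (a ∉ A → B (ι a) n ⊆ O2) := by
    intro a
    by_cases ha : a ∈ A
    · obtain ⟨n, hn⟩ := hBs (ι a) O1 (hO1.mem_nhds (hA1 ⟨a, ha, rfl⟩))
      exact ⟨n, fun _ => hn, fun h => absurd ha h⟩
    · obtain ⟨n, hn⟩ := hBs (ι a) O2 (hO2.mem_nhds (hA2 ⟨a, ha, rfl⟩))
      exact ⟨n, fun h => absurd h ha, fun _ => hn⟩
  choose h hh1 hh2 using hh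
  let f : I → ℕ → Bool := fun a n =>
    match n with
    | 0 => decide (a ∈ A)
    | n + 1 => decide (n = h a)
  have hf0 : ∀ a, f a 0 = true ↔ a ∈ A := fun a => by simp [f]
  have hfd : ∀ a, dec (f a) = h a := by
    intro a
    have : {n | f a (n + 1) = true} = {h a} := by
      ext n
      simp [f]
    simp only [dec]
    rw [this, csInf_singleton]
  let T : Set I := {a | F a f = g a}
  have hT : ∀ a ∈ T, ι a ∉ closure (⋃ b ∈ Iio a, B (ι b) (h b)) := by
    intro a ha hcl
    have h3 : (⋃ b ∈ Iio a, B (ι b) (h b)) ⊆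
        (⋃ b ∈ {b : I | b < a ∧ f b 0 = true}, B (ι b) (dec (f b))) ∪ O2 := by
      intro z hz
      obtain ⟨b, hb, hzb⟩ := mem_iUnion₂.1 hz
      by_cases hbA : b ∈ A
      · refine Or.inl (mem_iUnion₂.2 ⟨b, ⟨hb, (hf0 b).2 hbA⟩, ?_⟩)
        rw [hfd b]
        exact hzb
      · exact Or.inr (hh2 b hbA hzb)
    have h4 : (⋃ b ∈ {b : I | b < a ∧ f b 0 = true}, B (ι b) (dec (f b))) ⊆ O1 := by
      intro z hz
      obtain ⟨b, hb, hzb⟩ := mem_iUnion₂.1 hz
      rw [hfd b] at hzb
      exact hh1 b ((hf0 b).1 hb.2) hzb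
    by_cases haA : a ∈ A
    · -- `F a f = false`
      have h5 : F a f = false := by
        have h6 : F a f = g a := ha
        rw [h6]
        exact haA
      have h6 : ι a ∉ closure (⋃ b ∈ {b : I | b < a ∧ f b 0 = true}, B (ι b) (dec (f b))) := by
        have := h5
        simp only [F] at this
        exact of_decide_eq_false this
      have h7 := closure_mono h3 hcl
      rw [closure_union] at h7
      rcases h7 with h7 | h7
      · exact h6 h7
      · obtain ⟨z, hz1, hz2⟩ := mem_closure_iff.1 h7 O1 hO1 (hA1 ⟨a, haA, rfl⟩)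
        exact Set.disjoint_left.1 hdis hz1 hz2
    · have h5 : F a f = true := by
        have h6 : F a f = g a := ha
        rw [h6]
        have h7 : ¬ g a = false := haA
        simpa using h7
      have h6 : ι a ∈ closure (⋃ b ∈ {b : I | b < a ∧ f b 0 = true}, B (ι b) (dec (f b))) := by
        have := h5
        simp only [F] at this
        exact of_decide_eq_true this
      have h7 := closure_mono h4 h6
      obtain ⟨z, hz1, hz2⟩ := mem_closure_iff.1 h7 O2 hO2 (hA2 ⟨a, haA, rfl⟩)
      exact Set.disjoint_left.1 hdis hz2 hz1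
  have hk : ∀ a : I, ∃ k, a ∈ T → Disjoint (B (ι a) k) (⋃ b ∈ Iio a, B (ι b) (h b)) := by
    intro a
    by_cases ha : a ∈ T
    · obtain ⟨k, hk⟩ := hBs (ι a) _ (isClosed_closure.isOpen_compl.mem_nhds (hT a ha))
      refine ⟨k, fun _ => Set.disjoint_left.2 fun z hz hz2 => hk hz (subset_closure hz2)⟩
    · exact ⟨0, fun h => absurd h ha⟩
  choose k hk using hk
  let V : I → Set X := fun a => B (ι a) (k a) ∩ B (ι a) (h a)
  have hVo : ∀ a, IsOpen (V a) := fun a => (hBo _ _).inter (hBo _ _)
  have hVm : ∀ a, ι a ∈ V a := fun a => ⟨hBm _ _, hBm _ _⟩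
  have hVlt : ∀ a ∈ T, ∀ b, b < a → Disjoint (V a) (V b) := by
    intro a ha b hba
    rw [Set.disjoint_left]
    intro z hza hzb
    exact Set.disjoint_left.1 (hk a ha) hza.1 (mem_iUnion₂.2 ⟨b, hba, hzb.2⟩)
  have hVd : ∀ a ∈ T, ∀ b ∈ T, a ≠ b → Disjoint (V a) (V b) := by
    intro a ha b hb hab
    rcases lt_or_gt_of_ne hab with h' | h'
    · exact (hVlt b hb a h').symm
    · exact hVlt a ha b h'
  have hsep : DisjSep (ι '' T) := by
    refine ⟨fun x => V (Function.invFun ι x), ?_, ?_⟩
    · rintro _ ⟨a, _, rfl⟩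
      simp only [Function.leftInverse_invFun hι a]
      exact ⟨hVo a, hVm a⟩
    · rintro _ ⟨a, ha, rfl⟩ _ ⟨b, hb, rfl⟩ hne
      change Disjoint (V (Function.invFun ι (ι a))) (V (Function.invFun ι (ι b)))
      rw [Function.leftInverse_invFun hι a, Function.leftInverse_invFun hι b]
      exact hVd a ha b hb fun h => hne (by rw [h])
  obtain ⟨C, hCW, hCc, hCT⟩ := catching hX (hιE T) (W := V '' T) (by
    rintro _ ⟨a, _, rfl⟩
    exact hVo a) (by
    rintro _ ⟨a, ha, rfl⟩
    exact ⟨V a, ⟨a, ha, rfl⟩, hVm a⟩) subset_rfl hsep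
  have hVC : ∀ a ∈ T, V a ∈ C := by
    intro a ha
    obtain ⟨z, hz1, w, hw, hzw⟩ := mem_closure_iff.1 (hCT ⟨a, ha, rfl⟩) (V a) (hVo a) (hVm a)
    obtain ⟨b, hb, rfl⟩ := hCW hw
    by_cases hab : a = b
    · rw [hab]
      exact hw
    · exact absurd hzw (Set.disjoint_left.1 (hVd a ha b hb hab) hz1)
  have hinj : InjOn V T := by
    intro a ha b hb hab
    by_contra hne
    have := hVd a ha b hb hne
    rw [hab, disjoint_self] at this
    have h5 : ι b ∈ (∅ : Set X) := by
      have h6 := hVm b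
      rw [this] at h6
      exact h6
    exact h5
  have hTc : T.Countable := MapsTo.countable_of_injOn hVC hinj hCc
  obtain ⟨b, hb⟩ := exists_bound isRegular_kap (hTc.le_aleph0.trans_lt aleph0_lt_kap)
  obtain ⟨a, ha, haT⟩ := hg f b
  exact absurd (hb a haT) (not_lt.2 ha)

end MP3125f4
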